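import Pool.Agent.AMF.Defs

/-!
# Case 0: the leaf edges
-/

set_option autoImplicit false

namespace Pool.Agent.AMF

open Finset

/-- Leaf labels, first part. `Pr`: one private leaf for every vertex with leaves; `X2` = the other leaves of
`r`, `X3` = all other leaves. The private leaf of `w` gets the label `m - (number of w)`, the leaves of
`X3` get `1, ..., |X3|`. -/
theorem c0_leaf {W X : Type} [Fintype W] [DecidableEq W] [Fintype X] [DecidableEq X] (own : X → W)
    (r : W) (m : ℕ) (hm : Fintype.card X + Fintype.card W ≤ m) :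
    ∃ (Pr X2 X3 : Finset X) (lam1 : X → ℕ), Pr ∪ X2 ∪ X3 = univ ∧ Disjoint Pr X2 ∧
      Disjoint (Pr ∪ X2) X3 ∧ (∀ x ∈ X2, own x = r) ∧ (∀ x ∈ X3, own x ≠ r) ∧
      (∀ w, (leavesAt own w).Nonempty → ((leavesAt own w).filter (· ∈ Pr)).card = 1) ∧
      (∀ x ∈ Pr, m < lam1 x + Fintype.card W ∧ lam1 x ≤ m) ∧
      (∀ x ∈ X3, 1 ≤ lam1 x ∧ lam1 x ≤ X3.card) ∧
      Set.InjOn lam1 (↑(Pr ∪ X3) : Set X) := by
  classical
  -- private leaves
  let IsP : X → Prop := fun x => ∀ h : (leavesAt own (own x)).Nonempty, h.choose = x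
  have hne : ∀ x, (leavesAt own (own x)).Nonempty := fun x =>
    ⟨x, mem_filter.2 ⟨mem_univ _, rfl⟩⟩
  have hch : ∀ w (h : (leavesAt own w).Nonempty), own h.choose = w := fun w h =>
    (mem_filter.1 h.choose_spec).2
  let Pr : Finset X := univ.filter IsP
  let X2 : Finset X := univ.filter fun x => ¬ IsP x ∧ own x = r
  let X3 : Finset X := univ.filter fun x => ¬ IsP x ∧ own x ≠ r
  have hPr : ∀ x, x ∈ Pr ↔ IsP x := fun x => by simp [Pr]
  have hX2 : ∀ x, x ∈ X2 ↔ ¬ IsP x ∧ own x = r := fun x => by simp [X2]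
  have hX3 : ∀ x, x ∈ X3 ↔ ¬ IsP x ∧ own x ≠ r := fun x => by simp [X3]
  have hPinj : ∀ x y, IsP x → IsP y → own x = own y → x = y := by
    intro x y hx hy hxy
    have h1 := hx (hne x)
    have h2 := hy (hne y)
    rw [← h1, ← h2]
    have h3 : ∀ (w w' : W) (hw : (leavesAt own w).Nonempty) (hw' : (leavesAt own w').Nonempty),
        w = w' → hw.choose = hw'.choose := by
      intro w w' hw hw' he
      subst he
      rfl
    exact h3 _ _ _ _ hxy
  have h3W : X3.card ≤ Fintype.card X := card_le_univ _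
  let iw : W → ℕ := fun w => (Fintype.equivFin W w).val
  have hiw : ∀ w, iw w < Fintype.card W := fun w => (Fintype.equivFin W w).isLt
  have hiwinj : ∀ w w', iw w = iw w' → w = w' := fun w w' h =>
    (Fintype.equivFin W).injective (Fin.ext h)
  let e3 := X3.equivFin
  let lam1 : X → ℕ := fun x => if IsP x then m - iw (own x) else
    if hx : x ∈ X3 then (e3 ⟨x, hx⟩).val + 1 else 0
  have hl1 : ∀ x, IsP x → lam1 x = m - iw (own x) := fun x hx => if_pos hx
  have hl3 : ∀ x (hx : x ∈ X3), lam1 x = (e3 ⟨x, hx⟩).val + 1 := by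
    intro x hx
    have h1 : lam1 x = if hx : x ∈ X3 then (e3 ⟨x, hx⟩).val + 1 else 0 := if_neg ((hX3 x).1 hx).1
    rw [h1, dif_pos hx]
  refine ⟨Pr, X2, X3, lam1, ?_, ?_, ?_, fun x hx => ((hX2 x).1 hx).2,
    fun x hx => ((hX3 x).1 hx).2, ?_, ?_, ?_, ?_⟩
  · ext x
    simp only [mem_union, hPr, hX2, hX3, mem_univ, iff_true]
    tauto
  · rw [disjoint_left]
    intro x h1 h2
    exact ((hX2 x).1 h2).1 ((hPr x).1 h1)
  · rw [disjoint_left]
    intro x h1 h2
    rw [mem_union, hPr, hX2] at h1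
    rw [hX3] at h2
    rcases h1 with h1 | h1
    · exact h2.1 h1
    · exact h2.2 h1.2
  · intro w hw
    rw [card_eq_one]
    refine ⟨hw.choose, ?_⟩
    ext x
    rw [mem_filter, mem_singleton, hPr]
    constructor
    · rintro ⟨h1, h2⟩
      have h3 : own x = w := (mem_filter.1 h1).2
      subst h3
      exact (h2 hw).symm
    · intro hx
      have h3 : own x = w := by rw [hx]; exact hch w hw
      refine ⟨mem_filter.2 ⟨mem_univ _, h3⟩, ?_⟩
      subst h3
      exact fun h => hx.symm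
  · intro x hx
    rw [hl1 x ((hPr x).1 hx)]
    have := hiw (own x)
    omega
  · intro x hx
    rw [hl3 x hx]
    have := (e3 ⟨x, hx⟩).isLt
    omega
  · intro x hx y hy hxy
    have hx' := mem_union.1 (mem_coe.1 hx)
    have hy' := mem_union.1 (mem_coe.1 hy)
    rcases hx' with hx' | hx' <;> rcases hy' with hy' | hy'
    · have h1 := (hPr x).1 hx'
      have h2 := (hPr y).1 hy'
      rw [hl1 x h1, hl1 y h2] at hxy
      have h3 := hiw (own x)
      have h4 := hiw (own y)
      exact hPinj x y h1 h2 (hiwinj _ _ (by omega))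
    · rw [hl1 x ((hPr x).1 hx'), hl3 y hy'] at hxy
      have h3 := hiw (own x)
      have h4 := (e3 ⟨y, hy'⟩).isLt
      omega
    · rw [hl3 x hx', hl1 y ((hPr y).1 hy')] at hxy
      have h3 := hiw (own y)
      have h4 := (e3 ⟨x, hx'⟩).isLt
      omega
    · rw [hl3 x hx', hl3 y hy'] at hxy
      have h3 : e3 ⟨x, hx'⟩ = e3 ⟨y, hy'⟩ := Fin.ext (by omega)
      exact congrArg Subtype.val (e3.injective h3)

/-- Leaf labels, second part. The leaves of `X2` get the labels of `{1, ..., m}` that are not used by `lam1`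
on `Pr ∪ X3` and not in `U` (the labels of the inner edges); all of them are greater than `|X3|`. -/
theorem c0_leaf2 {X : Type} [Fintype X] [DecidableEq X] (Pr X2 X3 : Finset X) (lam1 : X → ℕ)
    (m n : ℕ) (U : Finset ℕ) (hu : Pr ∪ X2 ∪ X3 = univ) (h12 : Disjoint Pr X2)
    (h3 : Disjoint (Pr ∪ X2) X3) (hPr : ∀ x ∈ Pr, m < lam1 x + n ∧ lam1 x ≤ m)
    (hX3 : ∀ x ∈ X3, 1 ≤ lam1 x ∧ lam1 x ≤ X3.card) (hinj : Set.InjOn lam1 (↑(Pr ∪ X3) : Set X))
    (hU : ∀ y ∈ U, X3.card < y ∧ y + n ≤ m) (hm : m = Fintype.card X + U.card)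
    (hn : X3.card + n ≤ m) :
    ∃ lam : X → ℕ, (∀ x ∈ Pr ∪ X3, lam x = lam1 x) ∧ Function.Injective lam ∧
      (∀ x, 1 ≤ lam x ∧ lam x ≤ m ∧ lam x ∉ U) ∧ (∀ x ∈ X2, X3.card < lam x) := by
  classical
  -- the labels `1, ..., |X3|` are used
  have himg : X3.image lam1 = Icc 1 X3.card := by
    apply eq_of_subset_of_card_le
    · intro y hy
      obtain ⟨x, hx, rfl⟩ := mem_image.1 hy
      exact mem_Icc.2 (hX3 x hx)
    · rw [card_image_of_injOn (hinj.mono (by
        intro x hx
        exact mem_coe.2 (mem_union_right _ (mem_coe.1 hx)))), Nat.card_Icc]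
      omega
  set A : Finset ℕ := Icc 1 m \ (U ∪ (Pr ∪ X3).image lam1) with hA
  have hcard3 : Pr.card + X2.card + X3.card = Fintype.card X := by
    rw [← card_univ, ← hu, card_union_of_disjoint h3, card_union_of_disjoint h12]
  have hAc : X2.card ≤ A.card := by
    have h1 : (Icc 1 m).card - (U ∪ (Pr ∪ X3).image lam1).card ≤ A.card := le_card_sdiff _ _
    have h2 := card_union_le U ((Pr ∪ X3).image lam1)
    have h4 : ((Pr ∪ X3).image lam1).card ≤ (Pr ∪ X3).card := card_image_le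
    have h5 := card_union_le Pr X3
    rw [Nat.card_Icc] at h1
    omega
  obtain ⟨A', hA', hcA'⟩ := exists_subset_card_eq hAc
  let e : X2 ≃ A' := Finset.equivOfCardEq hcA'.symm
  let lam : X → ℕ := fun x => if hx : x ∈ X2 then (e ⟨x, hx⟩ : ℕ) else lam1 x
  have hl2 : ∀ x (hx : x ∈ X2), lam x = (e ⟨x, hx⟩ : ℕ) := fun x hx => dif_pos hx
  have hl1 : ∀ x, x ∉ X2 → lam x = lam1 x := fun x hx => dif_neg hx
  have hnot : ∀ x ∈ Pr ∪ X3, x ∉ X2 := by
    intro x hx hx2
    rcases mem_union.1 hx with hx | hx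
    · exact disjoint_left.1 h12 hx hx2
    · exact disjoint_left.1 h3 (mem_union_right _ hx2) hx
  have hor : ∀ x, x ∈ X2 ∨ x ∈ Pr ∪ X3 := by
    intro x
    have h1 : x ∈ Pr ∪ X2 ∪ X3 := by rw [hu]; exact mem_univ _
    simp only [mem_union] at h1 ⊢
    tauto
  have hA2 : ∀ x (hx : x ∈ X2), lam x ∈ A := by
    intro x hx
    rw [hl2 x hx]
    exact hA' (e ⟨x, hx⟩).2
  have hAmem : ∀ y ∈ A, 1 ≤ y ∧ y ≤ m ∧ y ∉ U ∧ y ∉ (Pr ∪ X3).image lam1 := by
    intro y hy
    obtain ⟨h1, h2⟩ := mem_sdiff.1 hy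
    rw [mem_Icc] at h1
    rw [mem_union, not_or] at h2
    exact ⟨h1.1, h1.2, h2.1, h2.2⟩
  refine ⟨lam, fun x hx => hl1 x (hnot x hx), ?_, ?_, ?_⟩
  · intro x y hxy
    rcases hor x with hx | hx <;> rcases hor y with hy | hy
    · rw [hl2 x hx, hl2 y hy] at hxy
      exact congrArg Subtype.val (e.injective (Subtype.ext hxy))
    · exfalso
      apply (hAmem _ (hA2 x hx)).2.2.2
      rw [hxy, hl1 y (hnot y hy)]
      exact mem_image_of_mem _ hy
    · exfalso
      apply (hAmem _ (hA2 y hy)).2.2.2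
      rw [← hxy, hl1 x (hnot x hx)]
      exact mem_image_of_mem _ hx
    · rw [hl1 x (hnot x hx), hl1 y (hnot y hy)] at hxy
      exact hinj (mem_coe.2 hx) (mem_coe.2 hy) hxy
  · intro x
    rcases hor x with hx | hx
    · have h1 := hAmem _ (hA2 x hx)
      exact ⟨h1.1, h1.2.1, h1.2.2.1⟩
    · rw [hl1 x (hnot x hx)]
      rcases mem_union.1 hx with hx | hx
      · obtain ⟨h1, h2⟩ := hPr x hx
        refine ⟨by omega, h2, fun hc => ?_⟩
        have := (hU _ hc).2
        omega
      · obtain ⟨h1, h2⟩ := hX3 x hx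
        refine ⟨h1, by omega, fun hc => ?_⟩
        have := (hU _ hc).1
        omega
  · intro x hx
    obtain ⟨h1, h2, h4, h5⟩ := hAmem _ (hA2 x hx)
    by_contra hcon
    apply h5
    have h6 : lam x ∈ X3.image lam1 := by
      rw [himg, mem_Icc]
      omega
    exact image_subset_image subset_union_right h6

/-- A set of natural numbers greater than `k` with `n` elements has sum `≥ n k + n (n + 1) / 2`. -/
theorem sum_lower {X : Type} [DecidableEq X] (S : Finset X) (lam : X → ℕ) (hl : Set.InjOn lam S) (k : ℕ)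
    (hk : ∀ x ∈ S, k < lam x) : S.card * k + S.card * (S.card + 1) / 2 ≤ ∑ x ∈ S, lam x := by
  induction hn : S.card generalizing S with
  | zero => simp
  | succ n ih =>
    have hne : S.Nonempty := card_pos.1 (by omega)
    obtain ⟨x, hx, hmax⟩ := exists_max_image S lam hne
    have h1 : (S.erase x).card = n := by
      rw [card_erase_of_mem hx, hn]
      rfl
    have h2 := ih (S.erase x) (hl.mono (by
      intro y hy
      exact mem_coe.2 (mem_of_mem_erase (mem_coe.1 hy)))) (fun y hy => hk y (mem_of_mem_erase hy)) h1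
    have h3 : n + 1 + k ≤ lam x := by
      have h4 : S.image lam ⊆ Ioc k (lam x) := by
        intro y hy
        obtain ⟨z, hz, rfl⟩ := mem_image.1 hy
        exact mem_Ioc.2 ⟨hk z hz, hmax z hz⟩
      have h5 := card_le_card h4
      rw [card_image_of_injOn hl, hn, Nat.card_Ioc] at h5
      have := hk x hx
      omega
    rw [← add_sum_erase S lam hx]
    have h4 : (n + 1) * (n + 1 + 1) / 2 = n * (n + 1) / 2 + (n + 1) := by
      have : (n + 1) * (n + 1 + 1) = n * (n + 1) + 2 * (n + 1) := by ring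
      rw [this, Nat.add_mul_div_left _ _ (by norm_num)]
    rw [h4]
    have h5 : (n + 1) * k = n * k + k := by ring
    rw [h5]
    omega

end Pool.Agent.AMF
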