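import Pool.Agent.AMF.C0a
import Pool.Agent.AMF.C0b

/-!
# Case 0: few inner vertices
-/

set_option autoImplicit false

namespace Pool.Agent.AMF

open Finset

/-- As `c0_leaf`, with the weaker hypothesis `|X| + |W| ≤ m + 1` (so it can be used if `H` is a tree). -/
theorem C0_leaf {W X : Type} [Fintype W] [DecidableEq W] [Fintype X] [DecidableEq X] (own : X → W)
    (r : W) (m : ℕ) (hm : Fintype.card X + Fintype.card W ≤ m + 1) :
    ∃ (Pr X2 X3 : Finset X) (lam1 : X → ℕ), Pr ∪ X2 ∪ X3 = univ ∧ Disjoint Pr X2 ∧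
      Disjoint (Pr ∪ X2) X3 ∧ (∀ x ∈ X2, own x = r) ∧ (∀ x ∈ X3, own x ≠ r) ∧
      (∀ w, (leavesAt own w).Nonempty → ((leavesAt own w).filter (· ∈ Pr)).card = 1) ∧
      (∀ x ∈ Pr, m < lam1 x + Fintype.card W ∧ lam1 x ≤ m) ∧
      (∀ x ∈ X3, 1 ≤ lam1 x ∧ lam1 x ≤ X3.card) ∧
      Set.InjOn lam1 (↑(Pr ∪ X3) : Set X) := by
  classical
  -- private leaves
  let IsP : X → Prop := fun x => ∀ h : (leavesAt own (own x)).Nonempty, h.choose = x
  have hne : ∀ x, (leavesAt own (own x)).Nonempty := fun x =>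
    ⟨x, mem_filter.2 ⟨mem_univ _, rfl⟩⟩
  have hch : ∀ w (h : (leavesAt own w).Nonempty), own h.choose = w := fun w h =>
    (mem_filter.1 h.choose_spec).2
  let Pr : Finset X := univ.filter IsP
  let X2 : Finset X := univ.filter fun x => ¬ IsP x ∧ own x = r
  let X3 : Finset X := univ.filter fun x => ¬ IsP x ∧ own x ≠ r
  have hPr : ∀ x, x ∈ Pr ↔ IsP x := fun x => by simp [Pr]
  have hX2 : ∀ x, x ∈ X2 ↔ ¬ IsP x ∧ own x = r := fun x => by simp [X2]
  have hX3 : ∀ x, x ∈ X3 ↔ ¬ IsP x ∧ own x ≠ r := fun x => by simp [X3]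
  have hPinj : ∀ x y, IsP x → IsP y → own x = own y → x = y := by
    intro x y hx hy hxy
    have h1 := hx (hne x)
    have h2 := hy (hne y)
    rw [← h1, ← h2]
    have h3 : ∀ (w w' : W) (hw : (leavesAt own w).Nonempty) (hw' : (leavesAt own w').Nonempty),
        w = w' → hw.choose = hw'.choose := by
      intro w w' hw hw' he
      subst he
      rfl
    exact h3 _ _ _ _ hxy
  have h3W : ∀ x, IsP x → X3.card < Fintype.card X := fun x hx =>
    card_lt_univ_of_notMem (x := x) fun h => ((hX3 x).1 h).1 hx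
  let iw : W → ℕ := fun w => (Fintype.equivFin W w).val
  have hiw : ∀ w, iw w < Fintype.card W := fun w => (Fintype.equivFin W w).isLt
  have hiwinj : ∀ w w', iw w = iw w' → w = w' := fun w w' h =>
    (Fintype.equivFin W).injective (Fin.ext h)
  let e3 := X3.equivFin
  let lam1 : X → ℕ := fun x => if IsP x then m - iw (own x) else
    if hx : x ∈ X3 then (e3 ⟨x, hx⟩).val + 1 else 0
  have hl1 : ∀ x, IsP x → lam1 x = m - iw (own x) := fun x hx => if_pos hx
  have hl3 : ∀ x (hx : x ∈ X3), lam1 x = (e3 ⟨x, hx⟩).val + 1 := by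
    intro x hx
    have h1 : lam1 x = if hx : x ∈ X3 then (e3 ⟨x, hx⟩).val + 1 else 0 := if_neg ((hX3 x).1 hx).1
    rw [h1, dif_pos hx]
  refine ⟨Pr, X2, X3, lam1, ?_, ?_, ?_, fun x hx => ((hX2 x).1 hx).2,
    fun x hx => ((hX3 x).1 hx).2, ?_, ?_, ?_, ?_⟩
  · ext x
    simp only [mem_union, hPr, hX2, hX3, mem_univ, iff_true]
    tauto
  · rw [disjoint_left]
    intro x h1 h2
    exact ((hX2 x).1 h2).1 ((hPr x).1 h1)
  · rw [disjoint_left]
    intro x h1 h2
    rw [mem_union, hPr, hX2] at h1
    rw [hX3] at h2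
    rcases h1 with h1 | h1
    · exact h2.1 h1
    · exact h2.2 h1.2
  · intro w hw
    rw [card_eq_one]
    refine ⟨hw.choose, ?_⟩
    ext x
    rw [mem_filter, mem_singleton, hPr]
    constructor
    · rintro ⟨h1, h2⟩
      have h3 : own x = w := (mem_filter.1 h1).2
      subst h3
      exact (h2 hw).symm
    · intro hx
      have h3 : own x = w := by rw [hx]; exact hch w hw
      refine ⟨mem_filter.2 ⟨mem_univ _, h3⟩, ?_⟩
      subst h3
      exact fun h => hx.symm
  · intro x hx
    rw [hl1 x ((hPr x).1 hx)]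
    have := hiw (own x)
    omega
  · intro x hx
    rw [hl3 x hx]
    have := (e3 ⟨x, hx⟩).isLt
    omega
  · intro x hx y hy hxy
    have hx' := mem_union.1 (mem_coe.1 hx)
    have hy' := mem_union.1 (mem_coe.1 hy)
    rcases hx' with hx' | hx' <;> rcases hy' with hy' | hy'
    · have h1 := (hPr x).1 hx'
      have h2 := (hPr y).1 hy'
      rw [hl1 x h1, hl1 y h2] at hxy
      have h3 := hiw (own x)
      have h4 := hiw (own y)
      have h5 := h3W x h1
      exact hPinj x y h1 h2 (hiwinj _ _ (by omega))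
    · rw [hl1 x ((hPr x).1 hx'), hl3 y hy'] at hxy
      have h3 := hiw (own x)
      have h4 := (e3 ⟨y, hy'⟩).isLt
      have h5 := h3W x ((hPr x).1 hx')
      omega
    · rw [hl3 x hx', hl1 y ((hPr y).1 hy')] at hxy
      have h3 := hiw (own y)
      have h4 := (e3 ⟨x, hx'⟩).isLt
      have h5 := h3W y ((hPr y).1 hy')
      omega
    · rw [hl3 x hx', hl3 y hy'] at hxy
      have h3 : e3 ⟨x, hx'⟩ = e3 ⟨y, hy'⟩ := Fin.ext (by omega)
      exact congrArg Subtype.val (e3.injective h3)

/-- the number of edges at a vertex -/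
theorem C0_edgesAt {W : Type} [Fintype W] [DecidableEq W] (H : SimpleGraph W) [DecidableRel H.Adj]
    (w : W) : (edgesAt H.edgeFinset w).card = H.degree w := by
  rw [← H.card_incidenceFinset_eq_degree w, H.incidenceFinset_eq_filter w]
  rfl

/-- the arithmetic -/
theorem C0_arith (n0 a m : ℕ) (ha : 2 * (n0 + 1) ^ 3 + 1 ≤ a)
    (hm : m ≤ n0 * (a + 1) + n0 ^ 2) : m + n0 * m < a * (a + 1) / 2 := by
  have h1 : (n0 + 1) ^ 3 * (a + 1) + 1 ≤ a * (a + 1) / 2 := by
    rw [Nat.le_div_iff_mul_le two_pos]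
    nlinarith [Nat.mul_le_mul_right (a + 1) ha]
  have h2 : m ≤ (n0 + 1) ^ 2 * (a + 1) := by nlinarith [Nat.zero_le (n0 ^ 2 * a), Nat.zero_le (n0 * a)]
  have h3 : m + n0 * m ≤ (n0 + 1) ^ 3 * (a + 1) := by
    calc m + n0 * m = (n0 + 1) * m := by ring
      _ ≤ (n0 + 1) * ((n0 + 1) ^ 2 * (a + 1)) := Nat.mul_le_mul_left _ h2
      _ = (n0 + 1) ^ 3 * (a + 1) := by ring
  omega

/-- **Case 0.** Few inner vertices, many edges. Let `m = |X| + |E|`, `n' = |W| ≤ n0`, `|E| ≤ n0 ^ 2`, and let `r` be a
vertex with the largest number `ℓ` of leaves, `ℓ ≥ |X| / n0`. Take `c0_leaf` (`Pr`, `X2`, `X3`, `lam1`), then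
`c0_inner` with `c0 w = ∑_{leaves x of w} lam1 x` (for `w ≠ r` all its leaves are in `Pr ∪ X3`) and
`lo = m - n' - |E| - 2 n'`: the inner edges get labels in `(m - 3 n' - |E|, m - n']`, then `c0_leaf2` with
`U` = the set of these labels, `n = n'`. All inner sums are `> m`: a vertex `w ≠ r` has an inner edge (label `> m / 2`)
and a second edge with label `> m / 2` (an inner edge or the private leaf edge). Sum at `r`:
at least `|X2| |X3| + |X2| (|X2| + 1) / 2` (`sum_lower`), `|X2| = ℓ - 1`. Sum at `w ≠ r`: at most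
`(ℓ - 1) |X3| + m + n0 m`. So the sum at `r` is greater than `m` and than all the other sums if `m` is large. -/
theorem case0 (n0 : ℕ) : ∃ m0 : ℕ, ∀ (W X : Type) [Fintype W] [DecidableEq W] [Fintype X]
    [DecidableEq X] (H : SimpleGraph W) [DecidableRel H.Adj] (own : X → W),
    Fintype.card W ≤ n0 → m0 ≤ Fintype.card X + H.edgeFinset.card → H.Connected →
    (∀ w, 2 ≤ (leavesAt own w).card + H.degree w) → IAM H own := by
  refine ⟨n0 * (2 * (n0 + 1) ^ 3 + 2) + 2 * n0 ^ 2 + 6 * n0 + 1, ?_⟩
  intro W X _ _ _ _ H _ own hW hM hconn hdeg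
  have : Nonempty W := hconn.nonempty
  -- the number of inner edges
  have hE2 : H.edgeFinset.card ≤ n0 ^ 2 := by
    have h1 := H.card_edgeFinset_le_card_choose_two
    have h2 : (Fintype.card W).choose 2 ≤ (Fintype.card W) ^ 2 := Nat.choose_le_pow _ _
    exact h1.trans (h2.trans (Nat.pow_le_pow_left hW 2))
  have hE1 : Fintype.card W ≤ H.edgeFinset.card + 1 := by
    have h1 := hconn.card_vert_le_card_edgeSet_add_one
    rw [Nat.card_eq_fintype_card, Nat.card_eq_fintype_card, ← SimpleGraph.edgeFinset_card] at h1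
    exact h1
  -- the vertex with the largest number of leaves
  obtain ⟨r, -, hr⟩ := exists_max_image univ (fun w => (leavesAt own w).card) univ_nonempty
  have hX : Fintype.card X ≤ n0 * (leavesAt own r).card := by
    have h1 : Fintype.card X = ∑ w, (leavesAt own w).card := by
      rw [← card_univ]
      exact card_eq_sum_card_fiberwise fun x _ => mem_univ _
    rw [h1]
    calc ∑ w, (leavesAt own w).card ≤ ∑ _w : W, (leavesAt own r).card :=
          sum_le_sum fun w _ => hr w (mem_univ w)
      _ = Fintype.card W * (leavesAt own r).card := by rw [sum_const, smul_eq_mul, card_univ]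
      _ ≤ n0 * (leavesAt own r).card := Nat.mul_le_mul_right _ hW
  -- the number of leaves at `r` is large
  have hl : 2 * (n0 + 1) ^ 3 + 2 ≤ (leavesAt own r).card := by
    by_contra hcon
    have h1 : (leavesAt own r).card ≤ 2 * (n0 + 1) ^ 3 + 2 := by omega
    have h2 := Nat.mul_le_mul_left n0 h1
    omega
  obtain ⟨a, ha⟩ : ∃ a, (leavesAt own r).card = a + 1 := ⟨(leavesAt own r).card - 1, by omega⟩
  set m := Fintype.card X + H.edgeFinset.card with hmdef
  have haL : 2 * (n0 + 1) ^ 3 + 1 ≤ a := by omega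
  have hmle : m ≤ n0 * (a + 1) + n0 ^ 2 := by rw [ha] at hX; omega
  have harith := C0_arith n0 a m haL hmle
  have ha3 : 3 * n0 ≤ a := by
    have : 3 * n0 ≤ 2 * (n0 + 1) ^ 3 + 1 := by nlinarith [Nat.zero_le (n0 ^ 3), Nat.zero_le (n0 ^ 2)]
    omega
  -- the labels of the leaves, first part
  obtain ⟨Pr, X2, X3, lam1, hu, h12, h3, hX2, hX3, hP1, hPr, hl3, hinj1⟩ :=
    C0_leaf own r m (by omega)
  -- the cardinality of `X2`
  have hX2c : X2.card = a := by
    have h1 : (leavesAt own r).filter (· ∉ Pr) = X2 := by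
      ext x
      rw [mem_filter]
      constructor
      · rintro ⟨h4, h5⟩
        have h6 : x ∈ Pr ∪ X2 ∪ X3 := hu ▸ mem_univ x
        rcases mem_union.1 h6 with h6 | h6
        · exact (mem_union.1 h6).resolve_left h5
        · exact absurd (mem_filter.1 h4).2 (hX3 x h6)
      · intro h4
        exact ⟨mem_filter.2 ⟨mem_univ _, hX2 x h4⟩, fun h5 => disjoint_left.1 h12 h5 h4⟩
    have h2 := card_filter_add_card_filter_not (s := leavesAt own r) (fun x => x ∈ Pr)
    have h3 := hP1 r (card_pos.1 (by omega))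
    rw [h1] at h2
    omega
  have hX3c : X3.card + a ≤ Fintype.card X := by
    have h1 : Disjoint X2 X3 := h3.mono_left subset_union_right
    have h2 : (X2 ∪ X3).card ≤ Fintype.card X := card_le_univ _
    rw [card_union_of_disjoint h1] at h2
    omega
  -- the leaves of the other vertices
  have hother : ∀ w, w ≠ r → ∀ x ∈ leavesAt own w, x ∈ Pr ∪ X3 := by
    intro w hw x hx
    have h6 : x ∈ Pr ∪ X2 ∪ X3 := hu ▸ mem_univ x
    rcases mem_union.1 h6 with h6 | h6
    · rcases mem_union.1 h6 with h6 | h6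
      · exact mem_union_left _ h6
      · exact absurd ((mem_filter.1 hx).2.symm.trans (hX2 x h6)) hw
    · exact mem_union_right _ h6
  -- the labels of the inner edges
  set lo := m - 3 * Fintype.card W - H.edgeFinset.card with hlo
  obtain ⟨g, hginj, hgb, hgs⟩ := c0_inner H hconn r (fun w => ∑ x ∈ leavesAt own w, lam1 x) lo
  have hn0m : 2 * n0 ^ 2 + 6 * n0 + 1 ≤ m := le_trans (by
    have : 0 ≤ n0 * (2 * (n0 + 1) ^ 3 + 2) := Nat.zero_le _
    omega) hM
  have hlo2 : lo + 3 * Fintype.card W + H.edgeFinset.card = m := by omega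
  have hgm : ∀ e ∈ H.edgeFinset, lo < g e ∧ g e + Fintype.card W ≤ m := by
    intro e he
    have h1 := hgb e he
    omega
  -- the labels of the leaves, second part
  have hUc : (H.edgeFinset.image g).card = H.edgeFinset.card := card_image_of_injOn hginj
  obtain ⟨lam, hlam1, hlaminj, hlamm, hlam2⟩ := c0_leaf2 Pr X2 X3 lam1 m (Fintype.card W)
    (H.edgeFinset.image g) hu h12 h3 hPr hl3 hinj1 (by
      intro y hy
      obtain ⟨e, he, rfl⟩ := mem_image.1 hy
      have h1 := hgm e he
      omega) (by rw [hUc]) (by omega)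
  -- the sums at the other vertices
  have hws : ∀ w, w ≠ r → wsum own H.edgeFinset lam g w =
      ∑ x ∈ leavesAt own w, lam1 x + ∑ e ∈ edgesAt H.edgeFinset w, g e := by
    intro w hw
    unfold wsum
    rw [sum_congr rfl fun x hx => hlam1 x (hother w hw x hx)]
  have hlow : ∀ w, w ≠ r → m < wsum own H.edgeFinset lam g w := by
    intro w hw
    rw [hws w hw]
    have : Nontrivial W := ⟨⟨w, r, hw⟩⟩
    have h1 : 0 < H.degree w := hconn.preconnected.degree_pos_of_nontrivial w
    have h2 : (edgesAt H.edgeFinset w).card * (lo + 1) ≤ ∑ e ∈ edgesAt H.edgeFinset w, g e := by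
      rw [← smul_eq_mul]
      exact card_nsmul_le_sum _ _ _ fun e he => (hgm e (mem_filter.1 he).1).1
    rw [C0_edgesAt] at h2
    by_cases h4 : 2 ≤ H.degree w
    · have h5 := Nat.mul_le_mul_right (lo + 1) h4
      omega
    · have h5 : H.degree w = 1 := by omega
      have h6 := hdeg w
      obtain ⟨x, hx⟩ := card_pos.1 (show 0 < (leavesAt own w).card by omega)
      obtain ⟨y, hy⟩ := card_eq_one.1 (hP1 w ⟨x, hx⟩)
      have hy' : y ∈ (leavesAt own w).filter (· ∈ Pr) := hy ▸ mem_singleton_self y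
      rw [mem_filter] at hy'
      have h7 := single_le_sum (f := lam1) (fun x _ => Nat.zero_le _) hy'.1
      have h8 := (hPr y hy'.2).1
      rw [h5, one_mul] at h2
      omega
  have hupp : ∀ w, w ≠ r → wsum own H.edgeFinset lam g w ≤ a * X3.card + m + n0 * m := by
    intro w hw
    rw [hws w hw]
    have h1 : ∑ e ∈ edgesAt H.edgeFinset w, g e ≤ n0 * m := by
      calc ∑ e ∈ edgesAt H.edgeFinset w, g e ≤ (edgesAt H.edgeFinset w).card • m :=
            sum_le_card_nsmul _ _ _ fun e he => by
              have := hgm e (mem_filter.1 he).1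
              omega
        _ ≤ n0 * m := by
            rw [smul_eq_mul, C0_edgesAt]
            exact Nat.mul_le_mul_right _ ((H.degree_lt_card_verts w).le.trans hW)
    have h2 : ∑ x ∈ leavesAt own w, lam1 x ≤ a * X3.card + m := by
      by_cases hne : (leavesAt own w).Nonempty
      · rw [← sum_filter_add_sum_filter_not (leavesAt own w) (fun x => x ∈ Pr), add_comm]
        have h3 := hP1 w hne
        have h4 := card_filter_add_card_filter_not (s := leavesAt own w) (fun x => x ∈ Pr)
        have h5 : (leavesAt own w).card ≤ a + 1 := ha ▸ hr w (mem_univ w)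
        refine add_le_add ?_ ?_
        · calc ∑ x ∈ (leavesAt own w).filter (· ∉ Pr), lam1 x
              ≤ ((leavesAt own w).filter (· ∉ Pr)).card • X3.card :=
                sum_le_card_nsmul _ _ _ fun x hx => by
                  rw [mem_filter] at hx
                  exact (hl3 x ((mem_union.1 (hother w hw x hx.1)).resolve_left hx.2)).2
            _ ≤ a * X3.card := by
                rw [smul_eq_mul]
                exact Nat.mul_le_mul_right _ (by omega)
        · calc ∑ x ∈ (leavesAt own w).filter (· ∈ Pr), lam1 x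
              ≤ ((leavesAt own w).filter (· ∈ Pr)).card • m :=
                sum_le_card_nsmul _ _ _ fun x hx => (hPr x (mem_filter.1 hx).2).2
            _ = m := by rw [h3, one_smul]
      · rw [not_nonempty_iff_eq_empty.1 hne, sum_empty]
        exact Nat.zero_le _
    omega
  -- the sum at `r`
  have hsr : a * X3.card + (m + n0 * m) < wsum own H.edgeFinset lam g r := by
    have h1 := sum_lower X2 lam hlaminj.injOn X3.card hlam2
    rw [hX2c] at h1
    have h2 : ∑ x ∈ X2, lam x ≤ ∑ x ∈ leavesAt own r, lam x :=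
      sum_le_sum_of_subset fun x hx => mem_filter.2 ⟨mem_univ _, hX2 x hx⟩
    have h3 : ∑ x ∈ leavesAt own r, lam x ≤ wsum own H.edgeFinset lam g r := Nat.le_add_right _ _
    omega
  have hgt : ∀ w, m < wsum own H.edgeFinset lam g w := by
    intro w
    by_cases hw : w = r
    · rw [hw]
      omega
    · exact hlow w hw
  refine ⟨lam, g, ?_⟩
  refine ⟨fun x => ⟨(hlamm x).1, (hlamm x).2.1⟩, fun e he => ?_, hlaminj, hginj, fun x e he h => ?_,
    ?_, fun x w => lt_of_le_of_lt (hlamm x).2.1 (hgt w)⟩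
  · have := hgm e he
    omega
  · exact (hlamm x).2.2 (mem_image.2 ⟨e, he, h.symm⟩)
  · intro w w' hww
    by_cases hw : w = r
    · by_cases hw' : w' = r
      · rw [hw, hw']
      · have h1 := hupp w' hw'
        rw [hw] at hww
        omega
    · by_cases hw' : w' = r
      · have h1 := hupp w hw
        rw [hw'] at hww
        omega
      · rw [hws w hw, hws w' hw'] at hww
        exact hgs w w' hw hw' hww

end Pool.Agent.AMF
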