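import Pool.Agent.AMF.Defs
import Pool.Agent.AMC.Par
import Pool.Agent.AMC.Tune

/-!
# Case 0: the inner edges
-/

set_option autoImplicit false

namespace Pool.Agent.AMF

open Finset Pool.Agent.AMC

/-- Labels for the inner edges. Every vertex `w ≠ r` has a tree edge `s(w, par w)` (`exists_par` with
`P' = ∅`, `Zb = {r}`); they are distinct. The other edges of `H` get labels `lo + 1, ..., lo + |E| - t` in any
order (`t` = number of tree edges, `t + 1 = |W|`), then `tune` with `E = H.edgeFinset`, the list of the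
pairs `(s(w, par w), w)`, `w ≠ r`, sorted by decreasing `dp`, `A = {lo + |E| - t + 1, ..., lo + |E| + 2 |W|}`, `Y = ∅`
and `p = lo + |E| + 2 |W| + 1` (the labels are distinct modulo `p`; sums distinct modulo `p` are distinct). -/
theorem c0_inner {W : Type} [Fintype W] [DecidableEq W] (H : SimpleGraph W) [DecidableRel H.Adj]
    (hH : H.Connected) (r : W) (c0 : W → ℕ) (lo : ℕ) :
    ∃ g : Sym2 W → ℕ, Set.InjOn g H.edgeFinset ∧
      (∀ e ∈ H.edgeFinset, lo < g e ∧ g e ≤ lo + H.edgeFinset.card + 2 * Fintype.card W) ∧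
      ∀ w w', w ≠ r → w' ≠ r → c0 w + ∑ e ∈ edgesAt H.edgeFinset w, g e =
        c0 w' + ∑ e ∈ edgesAt H.edgeFinset w', g e → w = w' := by
  classical
  obtain ⟨par, dp, hpar⟩ := exists_par H ∅ {r}
    (fun x => ⟨r, Finset.mem_singleton_self r, hH.preconnected x r⟩) (by simp) (by simp)
  have hp1 : ∀ x, x ≠ r → H.Adj x (par x) := fun x hx =>
    (hpar x (Finset.notMem_empty x) (by simpa using hx)).1
  have hp2 : ∀ x, x ≠ r → dp (par x) < dp x := fun x hx =>
    (hpar x (Finset.notMem_empty x) (by simpa using hx)).2.2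
  set E := H.edgeFinset with hE
  set f : W → Sym2 W := fun w => s(w, par w) with hf
  have hfE : ∀ w, w ≠ r → f w ∈ E := by
    intro w hw
    rw [hE, SimpleGraph.mem_edgeFinset]
    exact hp1 w hw
  have hfinj : ∀ w w', w ≠ r → w' ≠ r → f w = f w' → w = w' := by
    intro w w' hw hw' h
    simp only [hf, Sym2.eq_iff] at h
    rcases h with h | h
    · exact h.1
    · exfalso
      have h1 := hp2 w hw
      have h2 := hp2 w' hw'
      rw [h.2] at h1
      rw [← h.1] at h2
      omega
  set L0 : List W := (univ.erase r).toList with hL0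
  set L : List W := L0.mergeSort (fun a b => decide (dp b ≤ dp a)) with hL
  have hperm : L.Perm L0 := List.mergeSort_perm _ _
  have hLnd : L.Nodup := hperm.nodup_iff.2 (Finset.nodup_toList _)
  have hLmem : ∀ w, w ∈ L ↔ w ≠ r := by
    intro w
    rw [hperm.mem_iff, hL0, Finset.mem_toList]
    simp
  have hLs : L.Pairwise fun a b => dp b ≤ dp a := by
    have := List.pairwise_mergeSort (le := fun a b : W => decide (dp b ≤ dp a))
      (by intro a b c h1 h2; simp only [decide_eq_true_eq] at *; omega)
      (by intro a b; simp only [Bool.or_eq_true, decide_eq_true_eq]; omega) L0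
    refine this.imp ?_
    intro a b h
    simpa using h
  have hLlen : L.length = Fintype.card W - 1 := by
    rw [hperm.length_eq, hL0, Finset.length_toList, Finset.card_erase_of_mem (mem_univ r),
      card_univ]
  set l : List (Sym2 W × W) := L.map fun w => (f w, w) with hl
  have hlfst : l.map Prod.fst = L.map f := by
    rw [hl, List.map_map]; rfl
  have hWpos : 1 ≤ Fintype.card W := Fintype.card_pos_iff.2 ⟨r⟩
  set T : Finset (Sym2 W) := (univ.erase r).image f with hT
  have hTmem : ∀ e, e ∈ T ↔ e ∈ l.map Prod.fst := by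
    intro e
    rw [hlfst, hT]
    simp only [mem_image, mem_erase, mem_univ, and_true, List.mem_map, hLmem]
  have hTcard : T.card = Fintype.card W - 1 := by
    rw [hT, Finset.card_image_of_injOn, Finset.card_erase_of_mem (mem_univ r), card_univ]
    intro a ha b hb hab
    simp only [coe_erase, coe_univ, Set.mem_diff, Set.mem_univ, Set.mem_singleton_iff,
      true_and] at ha hb
    exact hfinj a b ha hb hab
  have hTE : T ⊆ E := by
    intro e he
    rw [hT, mem_image] at he
    obtain ⟨w, hw, rfl⟩ := he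
    exact hfE w (Finset.ne_of_mem_erase hw)
  have hTle : Fintype.card W - 1 ≤ E.card := hTcard ▸ Finset.card_le_card hTE
  have hdiff : (E \ T).card = E.card - (Fintype.card W - 1) := by
    rw [Finset.card_sdiff_of_subset hTE, hTcard]
  set t := Fintype.card W - 1 with ht
  -- labels of the other edges
  let g0 : Sym2 W → ℕ := fun e =>
    if h : e ∈ E \ T then lo + 1 + ((E \ T).equivFin ⟨e, h⟩ : ℕ) else 0
  have hg0 : ∀ e (h : e ∈ E \ T), g0 e = lo + 1 + ((E \ T).equivFin ⟨e, h⟩ : ℕ) := by
    intro e h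
    simp only [g0, dif_pos h]
  set p := lo + E.card + 2 * Fintype.card W + 1 with hp
  haveI : NeZero p := ⟨by omega⟩
  set A : Finset ℕ := Finset.Icc (lo + E.card - t + 1) (lo + E.card + 2 * Fintype.card W) with hA
  have hAp : ∀ a ∈ A, a < p := by
    intro a ha
    rw [hA, Finset.mem_Icc] at ha
    omega
  obtain ⟨g, h1, h2, h3, _, h5⟩ := tune p (fun w => (c0 w : ZMod p)) E l
    (by
      intro u hu
      rw [hl, List.mem_map] at hu
      obtain ⟨w, hw, rfl⟩ := hu
      exact ⟨hfE w ((hLmem w).1 hw), Sym2.mem_mk_left _ _⟩)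
    (by
      rw [hl, List.pairwise_map]
      have h6 := (hLs.and hLnd)
      refine List.Pairwise.imp_of_mem ?_ h6
      intro a b ha hb hab hab'
      have hb' := (hLmem b).1 hb
      have h7 : a = b ∨ a = par b := by simpa [hf] using hab'
      rcases h7 with h7 | h7
      · exact hab.2 h7
      · have h8 := hp2 b hb'
        rw [← h7] at h8
        have := hab.1
        omega)
    (by
      rw [hlfst]
      refine List.Nodup.map_on ?_ hLnd
      intro a ha b hb hab
      exact hfinj a b ((hLmem a).1 ha) ((hLmem b).1 hb) hab)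
    g0 A
    (by
      intro a ha b hb hab
      have h6 := congrArg ZMod.val hab
      rw [ZMod.val_natCast_of_lt (hAp a ha), ZMod.val_natCast_of_lt (hAp b hb)] at h6
      exact h6)
    ∅
    (by
      rw [hl, List.length_map, hLlen, hA, Nat.card_Icc, Finset.card_empty]
      omega)
  have hgT : ∀ e ∈ T, g e ∈ A := fun e he => h2 e ((hTmem e).1 he)
  have hgN : ∀ e, e ∈ E \ T → g e = g0 e := fun e he =>
    h1 e (fun h => (Finset.mem_sdiff.1 he).2 ((hTmem e).2 h))
  have hgNb : ∀ e, e ∈ E \ T → lo < g e ∧ g e ≤ lo + E.card - t := by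
    intro e he
    rw [hgN e he, hg0 e he]
    have h6 := ((E \ T).equivFin ⟨e, he⟩).2
    omega
  have hgTb : ∀ e ∈ T, lo + E.card - t + 1 ≤ g e ∧ g e ≤ lo + E.card + 2 * Fintype.card W := by
    intro e he
    have := hgT e he
    rw [hA, Finset.mem_Icc] at this
    exact this
  refine ⟨g, ?_, ?_, ?_⟩
  · intro e he e' he' hee
    have he1 : e ∈ E := he
    have he1' : e' ∈ E := he'
    by_cases hT1 : e ∈ T <;> by_cases hT2 : e' ∈ T
    · exact h3 e ((hTmem e).1 hT1) e' ((hTmem e').1 hT2) hee
    · have h6 := hgTb e hT1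
      have h7 := hgNb e' (Finset.mem_sdiff.2 ⟨he1', hT2⟩)
      omega
    · have h6 := hgTb e' hT2
      have h7 := hgNb e (Finset.mem_sdiff.2 ⟨he1, hT1⟩)
      omega
    · have m1 := Finset.mem_sdiff.2 ⟨he1, hT1⟩
      have m2 := Finset.mem_sdiff.2 ⟨he1', hT2⟩
      rw [hgN e m1, hgN e' m2, hg0 e m1, hg0 e' m2] at hee
      have h6 : (E \ T).equivFin ⟨e, m1⟩ = (E \ T).equivFin ⟨e', m2⟩ := Fin.ext (by omega)
      exact congrArg Subtype.val ((E \ T).equivFin.injective h6)
  · intro e he
    by_cases hT1 : e ∈ T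
    · have h6 := hgTb e hT1
      omega
    · have h7 := hgNb e (Finset.mem_sdiff.2 ⟨he, hT1⟩)
      omega
  · intro w w' hw hw' h
    have h6 := h5 (f w, w) (by rw [hl]; exact List.mem_map.2 ⟨w, (hLmem w).2 hw, rfl⟩)
      (f w', w') (by rw [hl]; exact List.mem_map.2 ⟨w', (hLmem w').2 hw', rfl⟩) ?_
    · exact congrArg Prod.snd h6
    · have h7 := congrArg (fun n : ℕ => (n : ZMod p)) h
      simp only [edgesAt] at h7
      push_cast at h7
      exact h7

end Pool.Agent.AMF
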