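import Pool.Agent.AMF.Defs
import Pool.Agent.AMX.Repair
import Pool.Agent.AMX.PT
import Pool.Agent.AMX.Build
import Pool.Agent.AMX.Leaf
import Pool.Agent.AMX.Bg

/-!
# Case 1: the inner graph has a large matching
-/

set_option autoImplicit false
set_option linter.unusedSectionVars false
set_option linter.unusedVariables false

namespace Pool.Agent.AMF

open Finset
open Pool.Agent.AMX

section

variable {W : Type} [Fintype W] [DecidableEq W]

/-- the ends of an edge -/
def C1_en (e : Sym2 W) : Finset W := univ.filter fun w => w ∈ e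

theorem C1_mem_en {e : Sym2 W} {w : W} : w ∈ C1_en e ↔ w ∈ e := by simp [C1_en]

theorem C1_en_card {e : Sym2 W} (h : ¬ e.IsDiag) : (C1_en e).card = 2 := by
  induction e using Sym2.ind with
  | _ a b =>
    rw [Sym2.mk_isDiag_iff] at h
    rw [card_eq_two]
    refine ⟨a, b, h, ?_⟩
    ext w
    rw [C1_mem_en]
    simp

theorem C1_en_inter {e e' : Sym2 W} (hne : e ≠ e') : (C1_en e ∩ C1_en e').card ≤ 1 := by
  rw [card_le_one]
  intro a ha b hb
  by_contra hab
  rw [mem_inter, C1_mem_en, C1_mem_en] at ha hb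
  have h1 : e = s(a, b) := (Sym2.mem_and_mem_iff hab).1 ⟨ha.1, hb.1⟩
  have h2 : e' = s(a, b) := (Sym2.mem_and_mem_iff hab).1 ⟨ha.2, hb.2⟩
  exact hne (h1.trans h2.symm)

variable {H : SimpleGraph W} [DecidableRel H.Adj]

theorem C1_cov (hH : H.Connected) (h3 : 2 ≤ Fintype.card W) (w : W) :
    ∃ e ∈ H.edgeFinset, w ∈ e := by
  classical
  have : Nontrivial W := Fintype.one_lt_card_iff_nontrivial.1 (by omega)
  have h := hH.preconnected.degree_pos_of_nontrivial w
  obtain ⟨v, hv⟩ := (H.degree_pos_iff_exists_adj w).1 h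
  exact ⟨s(w, v), by simpa using hv, by simp⟩

theorem C1_adj (hH : H.Connected) (h3 : 3 ≤ Fintype.card W) {e : Sym2 W}
    (he : e ∈ H.edgeFinset) : ∃ e' ∈ H.edgeFinset, e' ≠ e ∧ (C1_en e ∩ C1_en e').Nonempty := by
  classical
  have hd : ¬ e.IsDiag := H.not_isDiag_of_mem_edgeFinset he
  have hc := C1_en_card hd
  -- a vertex outside `e`
  obtain ⟨v, hv⟩ : ∃ v, v ∉ C1_en e := by
    by_contra hcon
    push Not at hcon
    have : (univ : Finset W) ⊆ C1_en e := fun x _ => hcon x
    have := card_le_card this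
    rw [card_univ] at this
    omega
  obtain ⟨u, hu⟩ : (C1_en e).Nonempty := by
    rw [← card_pos]
    omega
  obtain ⟨p⟩ := hH.preconnected u v
  obtain ⟨d, -, hd1, hd2⟩ := p.exists_boundary_dart (C1_en e : Set W) (by simpa using hu)
    (by simpa using hv)
  refine ⟨s(d.fst, d.snd), by simp, ?_, ⟨d.fst, ?_⟩⟩
  · intro h
    apply hd2
    rw [mem_coe, C1_mem_en, ← h]
    simp
  · rw [mem_inter]
    exact ⟨by simpa using hd1, by rw [C1_mem_en]; simp⟩

end

/-- a residue determines an element of a short interval -/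
theorem C1_inj_mod {p : ℕ} {lo len x y : ℕ} (hlen : len ≤ p) (hx : lo ≤ x ∧ x < lo + len)
    (hy : lo ≤ y ∧ y < lo + len) (h : (x : ZMod p) = (y : ZMod p)) : x = y := by
  rw [ZMod.natCast_eq_natCast_iff] at h
  rcases le_total x y with hle | hle
  · have h1 := (Nat.modEq_iff_dvd' hle).1 h
    have h2 := Nat.eq_zero_of_dvd_of_lt h1 (by omega)
    omega
  · have h1 := (Nat.modEq_iff_dvd' hle).1 h.symm
    have h2 := Nat.eq_zero_of_dvd_of_lt h1 (by omega)
    omega

/-- **Case 1, combinatorial part**: from a skeleton to the labelling, if there are enough valid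
gadgets. -/
theorem C1_core (D0 : ℕ) (β q0 : ℝ) {k D : ℕ} {C d ε : ℝ} (hβ : 0 < β) (hq0 : 0 < q0)
    (hε0 : 0 < ε) (hε1 : ε ≤ 1 / 4) (hεq : 2240 * ε ≤ q0) {n0 : ℕ} (hd : d = 4 * ε)
    (hC : C = 10 * (2 * k + 1))
    (hPT : ∀ (F W I : Type) [Fintype F] [DecidableEq F] [Fintype W] [DecidableEq W]
        [Fintype I] [DecidableEq I] (p : ℕ) [NeZero p] (S : PS F W I p) (L : Finset ℕ)
        (lo len : ℕ) (Sp : Finset F), n0 ≤ Fintype.card F → S.Ok k D 8 → S.SpOk Sp →
        (∀ f ∈ Sp, ∀ u ∈ S.en f, (S.slots u).card ≤ D0) →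
        L.card = Fintype.card F → (∀ a ∈ L, lo ≤ a ∧ a < lo + len) →
        (2 * k + 1) * (len + 2) ≤ p → (p : ℝ) ≤ C * Fintype.card F →
        β * Fintype.card F ≤ Sp.card →
        (Fintype.card W : ℝ) ≤ (1 + d / 2) * Fintype.card F →
        ∃ (T : Finset (ZMod p)) (lab : F → ℕ) (Rg : Finset W) (Gd : Finset F),
          Out S L Sp T lab Rg Gd (q0 * Fintype.card F) (8 + 3) ∧
          (Fintype.card W : ℝ) - Rg.card ≤ d * Fintype.card F)
    {W X : Type} [Fintype W] [DecidableEq W] [Fintype X] [DecidableEq X] (H : SimpleGraph W)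
    [DecidableRel H.Adj] (own : X → W) (hH : H.Connected)
    (hdeg : ∀ w, 2 ≤ (leavesAt own w).card + H.degree w)
    (hn1 : 3 ≤ Fintype.card W) (hn2 : (n0 : ℝ) ≤ 3 / 4 * Fintype.card W)
    (hn3 : 112 / q0 < Fintype.card W)
    {hub : Finset W} {F : Finset (Sym2 W)} {pt : Sym2 W → ℕ} {vp : W → ℕ} {Sp : Finset (Sym2 W)}
    (hS : Skel H hub F pt vp Sp k D D0) (hhub : (hub.card : ℝ) ≤ ε * Fintype.card W)
    (hF1 : (1 - ε) * Fintype.card W ≤ F.card) (hF2 : F.card ≤ Fintype.card W)
    (hSp1 : β * Fintype.card W ≤ Sp.card) (hSp2 : 3 * Sp.card ≤ F.card) : IAM H own := by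
  classical
  set n := Fintype.card W with hn
  set N := F.card with hN
  have hnr : (3 : ℝ) ≤ n := by exact_mod_cast hn1
  have hNr : 3 / 4 * (n : ℝ) ≤ N := by nlinarith
  have hNr2 : (N : ℝ) ≤ n := by exact_mod_cast hF2
  -- the modulus
  set p := (2 * k + 1) * (2 * n + 3) with hp
  have hp1 : 2 * n + 3 ≤ p := Nat.le_mul_of_pos_left _ (by omega)
  have : NeZero p := ⟨by omega⟩
  -- leaf labels
  obtain ⟨lam, hlam, hlamm⟩ := leaf_labels own p (by omega)
  set a := Fintype.card X with ha
  have hlam1 : ∀ x, 1 ≤ lam x ∧ lam x ≤ a := fun x => by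
    have := hlam.mapsTo (Set.mem_univ x)
    simpa using this
  -- background labels
  have hFE : F ⊆ H.edgeFinset := fun e he => SimpleGraph.mem_edgeFinset.2 (hS.edge e he)
  set Eb := H.edgeFinset \ F with hEb
  set c0 : W → ZMod p := fun w => ∑ x ∈ univ.filter (fun x => own x = w), (lam x : ZMod p) with hc0
  have hN5 : 2 * n ≤ 5 * N := by
    have : (2 : ℝ) * n ≤ 5 * N := by linarith
    exact_mod_cast this
  obtain ⟨g0, hg1, hg2, ⟨lo, hlo⟩, hg4⟩ := bg_labels Eb
    (fun e he => H.not_isDiag_of_mem_edgeFinset (mem_sdiff.1 he).1) hub p c0 a N hN5 (by omega)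
  set L := Finset.Ioc a (a + Eb.card + N) \ Eb.image g0 with hL
  have hLc : L.card = N := by
    have h1 : Eb.image g0 ⊆ Finset.Ioc a (a + Eb.card + N) := by
      intro b hb
      obtain ⟨e, he, rfl⟩ := mem_image.1 hb
      exact hg2 e he
    rw [hL, card_sdiff_of_subset h1, card_image_of_injOn hg1, Nat.card_Ioc]
    omega
  have hEm : H.edgeFinset.card = Eb.card + N := by
    rw [hEb, card_sdiff_of_subset hFE]
    have := card_le_card hFE
    omega
  -- offsets
  set c : W → ZMod p := fun w => c0 w + ∑ e ∈ Eb.filter (fun e => w ∈ e), (g0 e : ZMod p) with hc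
  set zt : Finset W := univ.filter fun w => w ∉ hub ∧ (∀ x, own x ≠ w) ∧ ∀ e ∈ Eb, w ∉ e with hzt
  -- edges at a vertex
  have hdegE : ∀ w, H.degree w = (H.edgeFinset.filter fun e => w ∈ e).card := by
    intro w
    rw [← SimpleGraph.card_incidenceFinset_eq_degree, SimpleGraph.incidenceFinset_eq_filter]
  have hzt1 : ∀ w ∈ zt, w ∉ hub → c w = 0 ∧ 2 ≤ (slotsAt F w).card := by
    intro w hw hwh
    simp only [hzt, mem_filter, mem_univ, true_and] at hw
    obtain ⟨-, h1, h2⟩ := hw
    constructor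
    · have e1 : univ.filter (fun x => own x = w) = ∅ := by
        rw [filter_eq_empty_iff]
        intro x _
        exact h1 x
      have e2 : Eb.filter (fun e => w ∈ e) = ∅ := by
        rw [filter_eq_empty_iff]
        intro e he
        exact h2 e he
      simp only [hc, hc0, e1, e2, sum_empty, add_zero]
    · have h3 := hdeg w
      have e1 : leavesAt own w = ∅ := by
        rw [leavesAt, filter_eq_empty_iff]
        intro x _
        exact h1 x
      rw [e1, card_empty, zero_add, hdegE w] at h3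
      refine h3.trans (card_le_card ?_)
      intro e he
      rw [mem_filter] at he
      rw [slotsAt, mem_filter]
      refine ⟨?_, he.2⟩
      by_contra hF
      exact h2 e (mem_sdiff.2 ⟨he.1, hF⟩) he.2
  have hmult : ∀ y, (univ.filter fun w => w ∉ hub ∧ w ∉ zt ∧ c w = y).card ≤ 8 := by
    intro y
    have h1 : (univ.filter fun w => w ∉ hub ∧ w ∉ zt ∧ c w = y) ⊆
        (univ.filter fun w : W => w ∉ hub ∧ (∃ e ∈ Eb, w ∈ e) ∧
        c0 w + ∑ e ∈ Eb.filter (fun e => w ∈ e), (g0 e : ZMod p) = y) ∪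
        (univ.filter fun w : W => (∃ x, own x = w) ∧
        ∑ x ∈ univ.filter (fun x => own x = w), (lam x : ZMod p) = y) := by
      intro w hw
      simp only [mem_filter, mem_univ, true_and] at hw
      obtain ⟨h1, h2, h3⟩ := hw
      by_cases h4 : ∃ e ∈ Eb, w ∈ e
      · refine mem_union_left _ ?_
        simp only [mem_filter, mem_univ, true_and]
        exact ⟨h1, h4, h3⟩
      · refine mem_union_right _ ?_
        simp only [mem_filter, mem_univ, true_and]
        have h5 : ∃ x, own x = w := by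
          by_contra h5
          push Not at h5 h4
          exact h2 (by
            simp only [hzt, mem_filter, mem_univ, true_and]
            exact ⟨h1, h5, h4⟩)
        refine ⟨h5, ?_⟩
        have e2 : Eb.filter (fun e => w ∈ e) = ∅ := by
          rw [filter_eq_empty_iff]
          intro e he h6
          exact h4 ⟨e, he, h6⟩
        simp only [hc, e2, sum_empty, add_zero] at h3
        exact h3
    have h2 := card_le_card h1
    have h3 := card_union_le (univ.filter fun w : W => w ∉ hub ∧ (∃ e ∈ Eb, w ∈ e) ∧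
        c0 w + ∑ e ∈ Eb.filter (fun e => w ∈ e), (g0 e : ZMod p) = y)
        (univ.filter fun w : W => (∃ x, own x = w) ∧
        ∑ x ∈ univ.filter (fun x => own x = w), (lam x : ZMod p) = y)
    have h4 := hg4 y
    have h5 := hlamm y
    omega
  -- the part system
  set S := buildPS hS c zt with hSdef
  have hcF : Fintype.card {e // e ∈ F} = N := Fintype.card_coe F
  have hcW : Fintype.card {w // w ∉ hub} = n - hub.card := by
    rw [Fintype.card_subtype_compl, Fintype.card_coe]
  have hhubn : hub.card ≤ n := card_le_univ hub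
  have hcWr : (Fintype.card {w // w ∉ hub} : ℝ) = n - hub.card := by
    rw [hcW, Nat.cast_sub hhubn]
  obtain ⟨T, lab, Rg, Gd, hO, hRg⟩ := hPT {e // e ∈ F} {w // w ∉ hub} {i // i ∈ F.image pt} p S L
    lo (N + n) (spF F Sp) (by
      rw [hcF]
      have : (n0 : ℝ) ≤ N := hn2.trans hNr
      exact_mod_cast this) (build_ok hS c zt 8 hzt1 hmult) (build_sp hS c zt hSp2)
    (build_le hS c zt) (by rw [hLc, hcF]) hlo (by
      rw [hp]
      exact Nat.mul_le_mul_left _ (by omega)) (by
      rw [hcF, hp, hC]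
      push_cast
      nlinarith [show (0 : ℝ) ≤ k from Nat.cast_nonneg k]) (by
      rw [spF_card hS, hcF]
      nlinarith) (by
      rw [hcF, hcWr, hd]
      have : (0 : ℝ) ≤ hub.card := Nat.cast_nonneg _
      nlinarith)
  rw [hcF] at hO hRg
  -- the labelling of all inner edges
  set f : {e // e ∈ H.edgeFinset} → ℕ := fun e =>
    if h : (e : Sym2 W) ∈ F then lab ⟨e, h⟩ else g0 e with hf
  set en : {e // e ∈ H.edgeFinset} → Finset W := fun e => C1_en (e : Sym2 W) with hen
  have hfF : ∀ (e : Sym2 W) (h : e ∈ F), f ⟨e, hFE h⟩ = lab ⟨e, h⟩ := by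
    intro e h
    simp only [hf, dif_pos h]
  have hfB : ∀ (e : {e // e ∈ H.edgeFinset}), (e : Sym2 W) ∉ F → f e = g0 e := by
    intro e h
    simp only [hf, dif_neg h]
  -- all inner edges at a vertex
  have hsumE : ∀ (φ : Sym2 W → ZMod p) (w : W),
      ∑ e ∈ univ.filter (fun e : {e // e ∈ H.edgeFinset} => w ∈ en e), φ e =
        ∑ e ∈ H.edgeFinset.filter (fun e => w ∈ e), φ e := by
    intro φ w
    refine sum_bij (fun e _ => (e : Sym2 W)) ?_ ?_ ?_ ?_
    · intro e he
      simp only [mem_filter, mem_univ, true_and, hen, C1_mem_en] at he ⊢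
      exact ⟨e.2, he⟩
    · intro e _ e' _ h
      exact Subtype.ext h
    · intro e he
      rw [mem_filter] at he
      exact ⟨⟨e, he.1⟩, by simp only [mem_filter, mem_univ, true_and, hen, C1_mem_en]; exact he.2,
        rfl⟩
    · intro e _
      rfl
  set fS : Sym2 W → ZMod p := fun e => if h : e ∈ F then (lab ⟨e, h⟩ : ZMod p) else g0 e with hfS
  have hffS : ∀ e : {e // e ∈ H.edgeFinset}, (f e : ZMod p) = fS e := by
    intro e
    by_cases h : (e : Sym2 W) ∈ F
    · simp only [hf, hfS, dif_pos h]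
    · simp only [hf, hfS, dif_neg h]
  have hvs : ∀ w, vsum en c0 f w = c0 w + ∑ e ∈ H.edgeFinset.filter (fun e => w ∈ e), fS e := by
    intro w
    unfold vsum
    rw [← hsumE fS w]
    congr 1
    exact sum_congr rfl fun e _ => hffS e
  -- sums at vertices that are no hubs
  have hvs2 : ∀ w : {w // w ∉ hub}, vsum en c0 f w = S.sum lab w := by
    intro w
    rw [hvs, PS.sum]
    have h1 : ∑ e ∈ H.edgeFinset.filter (fun e => (w : W) ∈ e), fS e =
        ∑ e ∈ Eb.filter (fun e => (w : W) ∈ e), fS e + ∑ e ∈ F.filter (fun e => (w : W) ∈ e), fS e := by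
      rw [← sum_union]
      · congr 1
        ext e
        simp only [hEb, mem_filter, mem_union, mem_sdiff]
        constructor
        · rintro ⟨h1, h2⟩
          by_cases h3 : e ∈ F
          · exact Or.inr ⟨h3, h2⟩
          · exact Or.inl ⟨⟨h1, h3⟩, h2⟩
        · rintro (⟨⟨h1, h3⟩, h2⟩ | ⟨h3, h2⟩)
          · exact ⟨h1, h2⟩
          · exact ⟨hFE h3, h2⟩
      · rw [disjoint_left]
        intro e h1 h2
        rw [mem_filter, hEb, mem_sdiff] at h1
        exact h1.1.2 (mem_filter.1 h2).1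
    have h2 : ∑ e ∈ Eb.filter (fun e => (w : W) ∈ e), fS e =
        ∑ e ∈ Eb.filter (fun e => (w : W) ∈ e), (g0 e : ZMod p) := by
      refine sum_congr rfl fun e he => ?_
      rw [mem_filter, hEb, mem_sdiff] at he
      simp only [hfS, dif_neg he.1.2]
    have h3 : ∑ e ∈ F.filter (fun e => (w : W) ∈ e), fS e =
        ∑ e ∈ S.slots w, (lab e : ZMod p) := by
      symm
      refine sum_bij (fun e _ => (e : Sym2 W)) ?_ ?_ ?_ ?_
      · intro e he
        rw [PS.slots, mem_filter] at he
        rw [mem_filter]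
        refine ⟨e.2, ?_⟩
        have := he.2
        simp only [hSdef, buildPS, mem_filter, mem_univ, true_and] at this
        exact this
      · intro e _ e' _ h
        exact Subtype.ext h
      · intro e he
        rw [mem_filter] at he
        refine ⟨⟨e, he.1⟩, ?_, rfl⟩
        rw [PS.slots, mem_filter]
        refine ⟨mem_univ _, ?_⟩
        simp only [hSdef, buildPS, mem_filter, mem_univ, true_and]
        exact he.2
      · intro e _
        simp only [hfS, dif_pos e.2]
    rw [h1, h2, h3, ← add_assoc]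
    rfl
  -- regular vertices and gadgets
  set Rg' : Finset W := Rg.map (Function.Embedding.subtype _) with hRg'
  set ιE : {e // e ∈ F} → {e // e ∈ H.edgeFinset} := fun e => ⟨e, hFE e.2⟩ with hιE
  have hιinj : Function.Injective ιE := by
    intro e e' h
    have h' : (e : Sym2 W) = e' :=
      congrArg (fun z : {e // e ∈ H.edgeFinset} => (z : Sym2 W)) h
    exact Subtype.ext h'
  set Gd' : Finset {e // e ∈ H.edgeFinset} := Gd.image ιE with hGd'
  have hSen : ∀ (e : {e // e ∈ F}) (w : {w // w ∉ hub}), w ∈ S.en e ↔ (w : W) ∈ (e : Sym2 W) := by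
    intro e w
    simp only [hSdef, buildPS, mem_filter, mem_univ, true_and]
  have hGdSp : ∀ g ∈ Gd, (g : Sym2 W) ∈ Sp := by
    intro g hg
    have := hO.gsub hg
    simpa [spF] using this
  have hGnh : ∀ g ∈ Gd, ∀ w ∈ (g : Sym2 W), w ∉ hub := fun g hg w hw =>
    hS.sp_nonhub g (hGdSp g hg) w hw
  have hflab : ∀ g, f (ιE g) = lab g := fun g => hfF g g.2
  have hRc : (univ \ Rg').card = n - Rg.card := by
    rw [card_sdiff_of_subset (subset_univ _), card_univ, hRg', card_map]
  have hRgc : Rg.card ≤ n := by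
    have := card_le_univ Rg'
    rwa [hRg', card_map] at this
  have hirr : ((univ \ Rg').card : ℝ) ≤ 5 * ε * n := by
    rw [hRc, Nat.cast_sub hRgc]
    rw [hcWr] at hRg
    have h1 : d * N ≤ 4 * ε * n := by
      rw [hd]
      nlinarith
    linarith
  have hmemL : ∀ g : {e // e ∈ F}, lab g ∈ L := hO.mem
  have hRep : RepHyp en c0 f T Rg' Gd' (8 + 3) := by
    refine
      { two := fun e => C1_en_card (H.not_isDiag_of_mem_edgeFinset e.2)
        simple := fun e e' hne => C1_en_inter fun h => hne (Subtype.ext h)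
        cov := ?_
        adj := ?_
        sinj := ?_
        nT := ?_
        gRg := ?_
        gdisj := ?_
        ginj := ?_
        key := ?_
        test := ?_ }
    · intro w
      obtain ⟨e, he, hw⟩ := C1_cov hH (by omega) w
      exact ⟨⟨e, he⟩, C1_mem_en.2 hw⟩
    · intro e
      obtain ⟨e', he', hne, hint⟩ := C1_adj hH hn1 e.2
      exact ⟨⟨e', he'⟩, fun h => hne (congrArg Subtype.val h), hint⟩
    · intro w hw w' hw' h
      rw [hRg', mem_map] at hw hw'
      obtain ⟨v, hv, rfl⟩ := hw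
      obtain ⟨v', hv', rfl⟩ := hw'
      simp only [Function.Embedding.subtype_apply] at h ⊢
      rw [hvs2, hvs2] at h
      rw [hO.sinj v hv v' hv' h]
    · intro w hw
      rw [hRg', mem_map] at hw
      obtain ⟨v, hv, rfl⟩ := hw
      simp only [Function.Embedding.subtype_apply]
      rw [hvs2]
      exact hO.nT v hv
    · intro g' hg' w hw
      obtain ⟨g, hg, rfl⟩ := mem_image.1 hg'
      have hw1 : w ∈ (g : Sym2 W) := C1_mem_en.1 hw
      rw [hRg', mem_map]
      exact ⟨⟨w, hGnh g hg w hw1⟩, hO.gRg g hg ((hSen _ _).2 hw1), rfl⟩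
    · intro g' hg' g2' hg2' hne
      obtain ⟨g, hg, rfl⟩ := mem_image.1 hg'
      obtain ⟨g2, hg2, rfl⟩ := mem_image.1 hg2'
      rw [disjoint_left]
      intro w hw hw2
      refine hS.sp_disj g (hGdSp g hg) g2 (hGdSp g2 hg2) ?_ w (C1_mem_en.1 hw) (C1_mem_en.1 hw2)
      intro h
      exact hne (by rw [Subtype.ext h])
    · intro g' hg' g2' hg2' h
      obtain ⟨g, hg, rfl⟩ := mem_image.1 hg'
      obtain ⟨g2, hg2, rfl⟩ := mem_image.1 hg2'
      rw [hflab, hflab] at h
      have h1 := C1_inj_mod (by omega) (hlo _ (hmemL g)) (hlo _ (hmemL g2)) h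
      rw [hO.inj h1]
    · intro y
      refine le_trans (card_le_card ?_) ((card_image_le (f := ιE)).trans (hO.key y))
      intro g' hg'
      rw [mem_filter] at hg'
      obtain ⟨hg1, u, hu, hy⟩ := hg'
      obtain ⟨g, hg, rfl⟩ := mem_image.1 hg1
      have hu1 : u ∈ (g : Sym2 W) := C1_mem_en.1 hu
      refine mem_image.2 ⟨g, ?_, rfl⟩
      rw [mem_filter]
      refine ⟨hg, ⟨u, hGnh g hg u hu1⟩, (hSen _ _).2 hu1, ?_⟩
      rw [← hvs2, ← hflab]
      exact hy
    · intro C1 C2 l
      have h1 := hO.test C1 C2 l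
      have h2 : (Gd.filter fun g => Vd S T lab C1 C2 l g).card ≤
          (Gd'.filter fun g => C1 + f g ∈ T ∧ C2 + f g ∈ T ∧
            ∀ u ∈ en g, vsum en c0 f u - f g + l ∈ T ∧
            vsum en c0 f u - f g + l ≠ C1 + f g ∧ vsum en c0 f u - f g + l ≠ C2 + f g).card := by
        rw [← card_image_of_injective _ hιinj]
        refine card_le_card ?_
        intro g' hg'
        obtain ⟨g, hg, rfl⟩ := mem_image.1 hg'
        rw [mem_filter] at hg
        obtain ⟨hg1, h3, h4, h5⟩ := hg
        rw [mem_filter]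
        rw [hflab]
        refine ⟨mem_image_of_mem _ hg1, h3, h4, ?_⟩
        intro u hu
        have hu1 : u ∈ (g : Sym2 W) := C1_mem_en.1 hu
        have := h5 ⟨u, hGnh g hg1 u hu1⟩ ((hSen _ _).2 hu1)
        rw [← hvs2] at this
        exact this
      have h3 : (8 * ((8 + 3 : ℕ) + 3) * (univ \ Rg').card + 2 * ((8 + 3 : ℕ) + 3) : ℝ) <
          q0 * N := by
        push_cast
        rw [div_lt_iff₀ hq0] at hn3
        have h4 : 560 * ε * (n : ℝ) ≤ q0 / 4 * n := by nlinarith
        have h5 : 28 < q0 / 4 * (n : ℝ) := by linarith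
        have h6 : q0 * (3 / 4 * n) ≤ q0 * (N : ℝ) := mul_le_mul_of_nonneg_left hNr hq0.le
        nlinarith
      have h4 : ((Gd.filter fun g => Vd S T lab C1 C2 l g).card : ℝ) ≤
          ((Gd'.filter fun g => C1 + f g ∈ T ∧ C2 + f g ∈ T ∧
            ∀ u ∈ en g, vsum en c0 f u - f g + l ∈ T ∧
            vsum en c0 f u - f g + l ≠ C1 + f g ∧
            vsum en c0 f u - f g + l ≠ C2 + f g).card : ℝ) := by
        exact_mod_cast h2
      have h5 := h3.trans_le (h1.trans h4)
      exact_mod_cast h5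
  obtain ⟨σ, hσ⟩ := repair hRep
  -- the labels
  have hfmem : ∀ e, f e ∈ Finset.Ioc a (a + Eb.card + N) := by
    intro e
    by_cases h : (e : Sym2 W) ∈ F
    · have : f e = lab ⟨e, h⟩ := by simp only [hf, dif_pos h]
      rw [this]
      exact (mem_sdiff.1 (hmemL ⟨e, h⟩)).1
    · rw [hfB e h]
      exact hg2 e (mem_sdiff.2 ⟨e.2, h⟩)
  have hfinj : Function.Injective f := by
    intro e e' h
    by_cases h1 : (e : Sym2 W) ∈ F <;> by_cases h2 : (e' : Sym2 W) ∈ F
    · have e1 : f e = lab ⟨e, h1⟩ := by simp only [hf, dif_pos h1]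
      have e2 : f e' = lab ⟨e', h2⟩ := by simp only [hf, dif_pos h2]
      rw [e1, e2] at h
      have h' : (e : Sym2 W) = e' := congrArg (fun z : {e // e ∈ F} => (z : Sym2 W)) (hO.inj h)
      exact Subtype.ext h'
    · exfalso
      have e1 : f e = lab ⟨e, h1⟩ := by simp only [hf, dif_pos h1]
      rw [e1, hfB e' h2] at h
      have h3 := (mem_sdiff.1 (hmemL ⟨e, h1⟩)).2
      rw [h] at h3
      exact h3 (mem_image_of_mem _ (mem_sdiff.2 ⟨e'.2, h2⟩))
    · exfalso
      have e2 : f e' = lab ⟨e', h2⟩ := by simp only [hf, dif_pos h2]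
      rw [e2, hfB e h1] at h
      have h3 := (mem_sdiff.1 (hmemL ⟨e', h2⟩)).2
      rw [← h] at h3
      exact h3 (mem_image_of_mem _ (mem_sdiff.2 ⟨e.2, h1⟩))
    · rw [hfB e h1, hfB e' h2] at h
      exact Subtype.ext (hg1 (mem_coe.2 (mem_sdiff.2 ⟨e.2, h1⟩))
        (mem_coe.2 (mem_sdiff.2 ⟨e'.2, h2⟩)) h)
  set g : Sym2 W → ℕ := fun e => if h : e ∈ H.edgeFinset then f (σ ⟨e, h⟩) else 0 with hg
  have hgE : ∀ (e : Sym2 W) (h : e ∈ H.edgeFinset), g e = f (σ ⟨e, h⟩) := by
    intro e h
    simp only [hg, dif_pos h]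
  have hgm : ∀ e ∈ H.edgeFinset, a < g e ∧ g e ≤ a + H.edgeFinset.card := by
    intro e he
    have := hfmem (σ ⟨e, he⟩)
    rw [Finset.mem_Ioc] at this
    rw [hgE e he, hEm]
    exact ⟨this.1, by omega⟩
  refine ⟨lam, g, ?_⟩
  refine
    { lam_mem := fun x => ⟨(hlam1 x).1, (hlam1 x).2.trans (Nat.le_add_right _ _)⟩
      g_mem := fun e he => ⟨by have := (hgm e he).1; omega, (hgm e he).2⟩
      lam_inj := fun x y h => hlam.injOn (Set.mem_univ _) (Set.mem_univ _) h
      g_inj := ?_
      lam_ne := fun x e he h => by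
        have h1 := (hlam1 x).2
        have h2 := (hgm e he).1
        omega
      inj := ?_
      gt := ?_ }
  · intro e he e' he' h
    have he1 : e ∈ H.edgeFinset := he
    have he2 : e' ∈ H.edgeFinset := he'
    rw [hgE e he1, hgE e' he2] at h
    have := σ.injective (hfinj h)
    exact congrArg Subtype.val this
  · intro w w' h
    apply hσ
    have hw : ∀ w, ((wsum own H.edgeFinset lam g w : ℕ) : ZMod p) = vsum en c0 (f ∘ σ) w := by
      intro w
      unfold wsum vsum leavesAt edgesAt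
      push_cast
      congr 1
      rw [← hsumE (fun e => (g e : ZMod p)) w]
      refine sum_congr rfl fun e _ => ?_
      rw [hgE e e.2]
      rfl
    rw [← hw, ← hw, h]
  · intro x w
    obtain ⟨e, he, hwe⟩ := C1_cov hH (by omega) w
    have h1 : g e ≤ ∑ e ∈ edgesAt H.edgeFinset w, g e :=
      single_le_sum (f := g) (fun _ _ => Nat.zero_le _) (mem_filter.2 ⟨he, hwe⟩)
    have h2 := (hgm e he).1
    have h3 := (hlam1 x).2
    unfold wsum
    omega

/-- **Case 1.** The inner graph has a linear matching. -/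
theorem case1 (c : ℝ) (hc : 0 < c) : ∃ n0 : ℕ, ∀ (W X : Type) [Fintype W] [DecidableEq W] [Fintype X]
    [DecidableEq X] (H : SimpleGraph W) [DecidableRel H.Adj] (own : X → W),
    n0 ≤ Fintype.card W → H.Connected → (∀ w, 2 ≤ (leavesAt own w).card + H.degree w) →
    (∃ M : H.Subgraph, M.IsMatching ∧ c * Fintype.card W ≤ M.edgeSet.ncard) → IAM H own := by
  classical
  obtain ⟨β, hβ, D0, hSk⟩ := exists_skel c hc
  obtain ⟨q0, hq0, hPT⟩ := PT D0 β hβ
  set ε := min (1 / 4) (q0 / 2240) with hε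
  have hε0 : 0 < ε := lt_min (by norm_num) (by positivity)
  obtain ⟨k, D, δ, hδ, n1, hSk1⟩ := hSk ε hε0
  obtain ⟨n0, hPT0⟩ := hPT k D 8 (10 * (2 * k + 1)) (4 * ε) (by positivity) (by positivity)
  refine ⟨max (max n1 3) (max (2 * n0) (max (⌈112 / q0⌉₊ + 1) ⌈1 / δ⌉₊)), ?_⟩
  intro W X _ _ _ _ H _ own hn hH hdeg ⟨M, hM, hMc⟩
  have hn1 : n1 ≤ Fintype.card W := ((le_max_left _ _).trans (le_max_left _ _)).trans hn
  have hn2 : 3 ≤ Fintype.card W := ((le_max_right _ _).trans (le_max_left _ _)).trans hn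
  have hn3 : 2 * n0 ≤ Fintype.card W := ((le_max_left _ _).trans (le_max_right _ _)).trans hn
  have hn4 : ⌈112 / q0⌉₊ + 1 ≤ Fintype.card W :=
    ((le_max_left _ _).trans ((le_max_right _ _).trans (le_max_right _ _))).trans hn
  have hn5 : ⌈1 / δ⌉₊ ≤ Fintype.card W :=
    ((le_max_right _ _).trans ((le_max_right _ _).trans (le_max_right _ _))).trans hn
  have hsub : Subsingleton H.ConnectedComponent := hH.preconnected.subsingleton_connectedComponent
  obtain ⟨hub, F, pt, vp, Sp, hS, h1, h2, h3, h4, h5⟩ := hSk1 W H M hn1 (by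
      have hc1 : Nat.card H.ConnectedComponent ≤ 1 := Finite.card_le_one_iff_subsingleton.2 hsub
      have hc2 : (Nat.card H.ConnectedComponent : ℝ) ≤ 1 := by exact_mod_cast hc1
      refine hc2.trans ?_
      have h6 : 1 / δ ≤ Fintype.card W := (Nat.le_ceil _).trans (by exact_mod_cast hn5)
      rw [div_le_iff₀ hδ] at h6
      linarith) (by
      intro C
      have : C.supp = Set.univ := by
        ext v
        simp only [SimpleGraph.ConnectedComponent.mem_supp_iff, Set.mem_univ, iff_true]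
        exact Subsingleton.elim _ _
      rw [this, Set.ncard_univ, Nat.card_eq_fintype_card]
      exact hn2) hM hMc
  refine C1_core D0 β q0 hβ hq0 hε0 (min_le_left _ _) ?_ rfl rfl hPT0 H own hH hdeg hn2 ?_ ?_ hS
    h1 h2 h3 h4 h5
  · have : ε ≤ q0 / 2240 := min_le_right _ _
    linarith
  · have : (2 : ℝ) * n0 ≤ Fintype.card W := by exact_mod_cast hn3
    linarith
  · have h6 : (⌈112 / q0⌉₊ : ℝ) + 1 ≤ Fintype.card W := by exact_mod_cast hn4
    have h7 := Nat.le_ceil (112 / q0)
    linarith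

end Pool.Agent.AMF
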