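import Pool.Agent.AMF.Defs
import Pool.Agent.AMD.Main

/-!
# Case 2: small vertex cover, many supports
-/

set_option autoImplicit false

namespace Pool.Agent.AMF

open Finset

/-- **Case 2.** A small vertex cover of the inner graph, many supports outside. -/
theorem case2 (c1 : ℝ) (hc1 : 0 < c1) : ∃ c2 > 0, ∃ n0 : ℕ, ∀ (W X : Type) [Fintype W]
    [DecidableEq W] [Fintype X] [DecidableEq X] (H : SimpleGraph W) [DecidableRel H.Adj] (own : X → W),
    n0 ≤ Fintype.card W → H.Connected → (∀ w, 2 ≤ (leavesAt own w).card + H.degree w) →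
    ∀ Z : Finset W, (∀ e ∈ H.edgeFinset, ∃ z ∈ Z, z ∈ e) → (Z.card : ℝ) ≤ c2 * Fintype.card W →
    c1 * Fintype.card W ≤ ((univ.filter fun w => w ∉ Z ∧ (leavesAt own w).Nonempty).card : ℝ) →
    IAM H own := Pool.Agent.AMD.case2 c1 hc1

end Pool.Agent.AMF
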