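import Pool.Agent.AMF.Defs

/-!
# From the inner graph to the graph
-/

set_option autoImplicit false
set_option linter.unusedSectionVars false
set_option linter.style.haveILetI false

namespace Pool.Agent.AMF

open Finset

section Aux

variable {V : Type} [Fintype V] [DecidableEq V] (G : SimpleGraph V) [DecidableRel G.Adj]

/-- the inner vertices -/
abbrev CombW : Type := {v : V // G.degree v ≠ 1}

/-- the leaves -/
abbrev CombX : Type := {v : V // G.degree v = 1}

/-- the inner graph -/
abbrev CombH : SimpleGraph (CombW G) := G.comap Subtype.val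

variable {G}

theorem Comb_closed {S : Set V} (hS : ∀ a ∈ S, ∀ b, G.Adj a b → b ∈ S) {a b : V}
    (h : G.Reachable a b) (ha : a ∈ S) : b ∈ S := by
  obtain ⟨p⟩ := h
  induction p with
  | nil => exact ha
  | cons hadj _ ih => exact ih (hS _ ha _ hadj)

theorem Comb_exists_own (hG : G.Connected) (hV : 3 ≤ Fintype.card V) (x : V)
    (hx : G.degree x = 1) :
    ∃ u, G.Adj x u ∧ G.degree u ≠ 1 ∧ ∀ v, G.Adj x v → v = u := by
  rw [SimpleGraph.degree_eq_one_iff_existsUnique_adj] at hx
  obtain ⟨u, hu, huniq⟩ := hx
  refine ⟨u, hu, ?_, huniq⟩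
  intro hdu
  rw [SimpleGraph.degree_eq_one_iff_existsUnique_adj] at hdu
  obtain ⟨y, hy, hyuniq⟩ := hdu
  have hxy : x = y := hyuniq x hu.symm
  have hall : ∀ v, v ∈ ({x, u} : Set V) := by
    intro v
    refine Comb_closed (G := G) (S := {x, u}) ?_ (hG.preconnected x v) (Or.inl rfl)
    intro a ha b hab
    rcases ha with rfl | ha
    · exact Or.inr (huniq b hab)
    · rw [Set.mem_singleton_iff] at ha
      subst ha
      exact Or.inl ((hyuniq b hab).trans hxy.symm)
  have h1 : (Finset.univ : Finset V) ⊆ {x, u} := by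
    intro v _
    rcases hall v with h2 | h2
    · rw [h2]; exact Finset.mem_insert_self _ _
    · rw [Set.mem_singleton_iff] at h2
      rw [h2]; exact Finset.mem_insert_of_mem (Finset.mem_singleton_self _)
  have h2 := Finset.card_le_card h1
  have h3 : ({x, u} : Finset V).card ≤ 2 := Finset.card_le_two
  rw [Finset.card_univ] at h2
  omega

/-- the data of the owners -/
structure CombOwn (own : CombX G → CombW G) : Prop where
  adj : ∀ x, G.Adj x.1 (own x).1
  uniq : ∀ (x : CombX G) (v : V), G.Adj x.1 v → v = (own x).1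

theorem Comb_own (hG : G.Connected) (hV : 3 ≤ Fintype.card V) :
    ∃ own : CombX G → CombW G, CombOwn own := by
  choose u h1 h2 h3 using fun x : CombX G => Comb_exists_own hG hV x.1 x.2
  exact ⟨fun x => ⟨u x, h2 x⟩, ⟨h1, h3⟩⟩

variable {own : CombX G → CombW G}

theorem CombOwn.adj_leaf (h : CombOwn own) {x : CombX G} {v : V} : G.Adj x.1 v ↔ v = (own x).1 :=
  ⟨h.uniq x v, fun h1 => h1 ▸ h.adj x⟩

/-- the projection to the inner vertices -/
noncomputable def CombPr (own : CombX G → CombW G) (v : V) : CombW G :=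
  if h : G.degree v = 1 then own ⟨v, h⟩ else ⟨v, h⟩

theorem CombPr_inner (w : CombW G) : CombPr own w.1 = w := by
  unfold CombPr
  rw [dif_neg w.2]

theorem CombPr_leaf (x : CombX G) : CombPr own x.1 = own x := by
  unfold CombPr
  rw [dif_pos x.2]

theorem Comb_connected (hG : G.Connected) (h : CombOwn own) : (CombH G).Connected := by
  have hadj : ∀ u v, G.Adj u v → (CombH G).Reachable (CombPr own u) (CombPr own v) := by
    intro u v huv
    by_cases hu : G.degree u = 1
    · have h1 : v = (own ⟨u, hu⟩).1 := h.uniq ⟨u, hu⟩ v huv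
      have h2 : CombPr own u = own ⟨u, hu⟩ := CombPr_leaf ⟨u, hu⟩
      have h3 : CombPr own v = own ⟨u, hu⟩ := by rw [h1, CombPr_inner]
      rw [h2, h3]
    · by_cases hv : G.degree v = 1
      · have h1 : u = (own ⟨v, hv⟩).1 := h.uniq ⟨v, hv⟩ u huv.symm
        have h2 : CombPr own v = own ⟨v, hv⟩ := CombPr_leaf ⟨v, hv⟩
        have h3 : CombPr own u = own ⟨v, hv⟩ := by rw [h1, CombPr_inner]
        rw [h2, h3]
      · have h2 : CombPr own v = ⟨v, hv⟩ := CombPr_inner ⟨v, hv⟩
        have h3 : CombPr own u = ⟨u, hu⟩ := CombPr_inner ⟨u, hu⟩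
        rw [h2, h3]
        exact SimpleGraph.Adj.reachable huv
  have hreach : ∀ u v, G.Reachable u v → (CombH G).Reachable (CombPr own u) (CombPr own v) := by
    rintro u v ⟨p⟩
    induction p with
    | nil => exact SimpleGraph.Reachable.refl _
    | cons h1 _ ih => exact (hadj _ _ h1).trans ih
  haveI : Nonempty (CombW G) := by
    obtain ⟨v⟩ := hG.nonempty
    exact ⟨CombPr own v⟩
  refine ⟨fun a b => ?_⟩
  have h1 := hreach a.1 b.1 (hG.preconnected a.1 b.1)
  rwa [CombPr_inner, CombPr_inner] at h1

theorem Comb_card : Fintype.card (CombW G) + Fintype.card (CombX G) = Fintype.card V := by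
  rw [add_comm, ← Fintype.card_sum]
  exact Fintype.card_congr (Equiv.sumCompl fun v => G.degree v = 1)

/-- the edge of a leaf -/
def CombL (own : CombX G → CombW G) (x : CombX G) : Sym2 V := s(x.1, (own x).1)

/-- the edges of the inner graph -/
def CombE (e : Sym2 (CombW G)) : Sym2 V := Sym2.map Subtype.val e

theorem CombE_inj : Function.Injective (CombE (G := G)) :=
  Sym2.map.injective Subtype.val_injective

theorem CombL_inj (own : CombX G → CombW G) : Function.Injective (CombL own) := by
  intro x y hxy
  unfold CombL at hxy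
  rw [Sym2.eq_iff] at hxy
  rcases hxy with h1 | h1
  · exact Subtype.ext h1.1
  · exact absurd (h1.1 ▸ x.2) (own y).2

theorem CombL_ne_E (own : CombX G → CombW G) (x : CombX G) (e : Sym2 (CombW G)) :
    CombL own x ≠ CombE e := by
  intro h1
  have h2 : x.1 ∈ CombE e := by
    rw [← h1]
    exact Sym2.mem_mk_left _ _
  unfold CombE at h2
  rw [Sym2.mem_map] at h2
  obtain ⟨a, _, ha⟩ := h2
  exact a.2 (ha ▸ x.2)

theorem CombL_mem (h : CombOwn own) (x : CombX G) : CombL own x ∈ G.edgeFinset := by
  rw [SimpleGraph.mem_edgeFinset]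
  exact h.adj x

theorem CombE_mem_iff (e : Sym2 (CombW G)) :
    CombE e ∈ G.edgeFinset ↔ e ∈ (CombH G).edgeFinset := by
  rw [SimpleGraph.mem_edgeFinset, SimpleGraph.mem_edgeFinset]
  induction e using Sym2.ind with
  | _ a b => rfl

theorem Comb_cases (h : CombOwn own) {e : Sym2 V} (he : e ∈ G.edgeFinset) :
    (∃ x, e = CombL own x) ∨ ∃ e' ∈ (CombH G).edgeFinset, e = CombE e' := by
  rw [SimpleGraph.mem_edgeFinset] at he
  induction e using Sym2.ind with
  | _ u v =>
    rw [SimpleGraph.mem_edgeSet] at he
    by_cases hu : G.degree u = 1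
    · left
      refine ⟨⟨u, hu⟩, ?_⟩
      have h1 : v = (own ⟨u, hu⟩).1 := h.uniq ⟨u, hu⟩ v he
      unfold CombL
      rw [← h1]
    · by_cases hv : G.degree v = 1
      · left
        refine ⟨⟨v, hv⟩, ?_⟩
        have h1 : u = (own ⟨v, hv⟩).1 := h.uniq ⟨v, hv⟩ u he.symm
        unfold CombL
        rw [← h1]
        exact Sym2.eq_swap
      · right
        refine ⟨s(⟨u, hu⟩, ⟨v, hv⟩), ?_, rfl⟩
        rw [SimpleGraph.mem_edgeFinset]
        exact he

theorem Comb_edges (h : CombOwn own) :
    G.edgeFinset = (univ.image (CombL own)) ∪ ((CombH G).edgeFinset.image CombE) := by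
  ext e
  rw [Finset.mem_union, Finset.mem_image, Finset.mem_image]
  constructor
  · intro he
    rcases Comb_cases h he with ⟨x, hx⟩ | ⟨e', he', hx⟩
    · exact Or.inl ⟨x, Finset.mem_univ x, hx.symm⟩
    · exact Or.inr ⟨e', he', hx.symm⟩
  · rintro (⟨x, _, rfl⟩ | ⟨e', he', rfl⟩)
    · exact CombL_mem h x
    · exact (CombE_mem_iff e').2 he'

theorem Comb_disjoint (own : CombX G → CombW G) (A : Finset (CombX G))
    (B : Finset (Sym2 (CombW G))) : Disjoint (A.image (CombL own)) (B.image CombE) := by
  rw [Finset.disjoint_left]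
  intro e h1 h2
  obtain ⟨x, _, rfl⟩ := Finset.mem_image.1 h1
  obtain ⟨e', _, h3⟩ := Finset.mem_image.1 h2
  exact CombL_ne_E own x e' h3.symm

theorem Comb_card_edges (h : CombOwn own) :
    Fintype.card (CombX G) + (CombH G).edgeFinset.card = G.edgeFinset.card := by
  rw [Comb_edges h, Finset.card_union_of_disjoint (Comb_disjoint own _ _),
    Finset.card_image_of_injective _ (CombL_inj own),
    Finset.card_image_of_injective _ CombE_inj, Finset.card_univ]

theorem Comb_incidence (h : CombOwn own) (w : CombW G) :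
    G.incidenceFinset w.1 = ((leavesAt own w).image (CombL own)) ∪
      ((edgesAt (CombH G).edgeFinset w).image CombE) := by
  ext e
  rw [SimpleGraph.mem_incidenceFinset, SimpleGraph.incidenceSet, Set.mem_sep_iff,
    ← SimpleGraph.mem_edgeFinset, Finset.mem_union, Finset.mem_image, Finset.mem_image]
  constructor
  · rintro ⟨he, hw⟩
    rcases Comb_cases h he with ⟨x, rfl⟩ | ⟨e', he', rfl⟩
    · left
      refine ⟨x, ?_, rfl⟩
      unfold leavesAt
      rw [Finset.mem_filter]
      refine ⟨Finset.mem_univ x, ?_⟩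
      unfold CombL at hw
      rw [Sym2.mem_iff] at hw
      rcases hw with h1 | h1
      · exact absurd (h1 ▸ x.2) w.2
      · exact (Subtype.ext h1).symm
    · right
      refine ⟨e', ?_, rfl⟩
      unfold edgesAt
      rw [Finset.mem_filter]
      refine ⟨he', ?_⟩
      unfold CombE at hw
      rw [Sym2.mem_map] at hw
      obtain ⟨a, ha, haw⟩ := hw
      rwa [← Subtype.ext haw]
  · rintro (⟨x, hx, rfl⟩ | ⟨e', he', rfl⟩)
    · refine ⟨CombL_mem h x, ?_⟩
      unfold leavesAt at hx
      rw [← (Finset.mem_filter.1 hx).2]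
      exact Sym2.mem_mk_right _ _
    · unfold edgesAt at he'
      obtain ⟨h1, h2⟩ := Finset.mem_filter.1 he'
      refine ⟨(CombE_mem_iff e').2 h1, ?_⟩
      unfold CombE
      rw [Sym2.mem_map]
      exact ⟨w, h2, rfl⟩

theorem Comb_incidence_leaf (h : CombOwn own) (x : CombX G) :
    G.incidenceFinset x.1 = {CombL own x} := by
  ext e
  rw [SimpleGraph.mem_incidenceFinset, SimpleGraph.incidenceSet, Set.mem_sep_iff,
    ← SimpleGraph.mem_edgeFinset, Finset.mem_singleton]
  constructor
  · rintro ⟨he, hx⟩
    rcases Comb_cases h he with ⟨y, rfl⟩ | ⟨e', he', rfl⟩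
    · unfold CombL at hx
      rw [Sym2.mem_iff] at hx
      rcases hx with h1 | h1
      · rw [Subtype.ext h1]
      · exact absurd (h1 ▸ x.2) (own y).2
    · unfold CombE at hx
      rw [Sym2.mem_map] at hx
      obtain ⟨a, _, ha⟩ := hx
      exact absurd (ha ▸ x.2) a.2
  · rintro rfl
    exact ⟨CombL_mem h x, Sym2.mem_mk_left _ _⟩

theorem Comb_degree (hG : G.Connected) (hV : 3 ≤ Fintype.card V) (h : CombOwn own)
    (w : CombW G) : 2 ≤ (leavesAt own w).card + (CombH G).degree w := by
  have h1 : (G.incidenceFinset w.1).card = G.degree w.1 :=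
    G.card_incidenceFinset_eq_degree w.1
  rw [Comb_incidence h, Finset.card_union_of_disjoint (Comb_disjoint own _ _),
    Finset.card_image_of_injective _ (CombL_inj own),
    Finset.card_image_of_injective _ CombE_inj] at h1
  have h2 : edgesAt (CombH G).edgeFinset w = (CombH G).incidenceFinset w := by
    ext e
    unfold edgesAt
    rw [Finset.mem_filter, SimpleGraph.mem_incidenceFinset, SimpleGraph.incidenceSet,
      Set.mem_sep_iff, SimpleGraph.mem_edgeFinset]
  rw [h2, SimpleGraph.card_incidenceFinset_eq_degree] at h1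
  have h3 : G.degree w.1 ≠ 0 := by
    intro h0
    haveI : Nontrivial V := by
      rw [← Fintype.one_lt_card_iff_nontrivial]
      omega
    have h4 := hG.preconnected.degree_pos_of_nontrivial w.1
    omega
  have h4 := w.2
  omega

open Classical in
/-- the labelling of `G` -/
noncomputable def CombF (own : CombX G → CombW G) (lam : CombX G → ℕ)
    (g : Sym2 (CombW G) → ℕ) (e : Sym2 V) : ℕ :=
  if h : ∃ x, CombL own x = e then lam h.choose else
    if h' : ∃ e', CombE e' = e then g h'.choose else 0

theorem CombF_leaf (own : CombX G → CombW G) (lam : CombX G → ℕ) (g : Sym2 (CombW G) → ℕ)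
    (x : CombX G) : CombF own lam g (CombL own x) = lam x := by
  unfold CombF
  have h : ∃ y, CombL own y = CombL own x := ⟨x, rfl⟩
  rw [dif_pos h]
  exact congrArg lam (CombL_inj own h.choose_spec)

theorem CombF_inner (own : CombX G → CombW G) (lam : CombX G → ℕ) (g : Sym2 (CombW G) → ℕ)
    (e : Sym2 (CombW G)) : CombF own lam g (CombE e) = g e := by
  unfold CombF
  have h0 : ¬ ∃ y, CombL own y = CombE e := by
    rintro ⟨y, hy⟩
    exact CombL_ne_E own y e hy
  have h : ∃ e', CombE e' = CombE e := ⟨e, rfl⟩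
  rw [dif_neg h0, dif_pos h]
  exact congrArg g (CombE_inj h.choose_spec)

theorem Comb_antimagic (h : CombOwn own) (hI : IAM (CombH G) own) : Antimagic G := by
  obtain ⟨lam, g, hI⟩ := hI
  set f := CombF own lam g with hf
  have hcard := Comb_card_edges h
  have hmaps : ∀ e ∈ G.edgeFinset, f e ∈ Finset.Icc 1 G.edgeFinset.card := by
    intro e he
    rw [Finset.mem_Icc, ← hcard]
    rcases Comb_cases h he with ⟨x, rfl⟩ | ⟨e', he', rfl⟩
    · rw [hf, CombF_leaf]
      exact hI.lam_mem x
    · rw [hf, CombF_inner]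
      exact hI.g_mem e' he'
  have hinj : Set.InjOn f (G.edgeFinset : Set (Sym2 V)) := by
    intro e he e' he' hee
    rw [Finset.mem_coe] at he he'
    rcases Comb_cases h he with ⟨x, rfl⟩ | ⟨a, ha, rfl⟩
    · rcases Comb_cases h he' with ⟨y, rfl⟩ | ⟨b, hb, rfl⟩
      · rw [hf, CombF_leaf, CombF_leaf] at hee
        rw [hI.lam_inj hee]
      · rw [hf, CombF_leaf, CombF_inner] at hee
        exact absurd hee (hI.lam_ne x b hb)
    · rcases Comb_cases h he' with ⟨y, rfl⟩ | ⟨b, hb, rfl⟩
      · rw [hf, CombF_leaf, CombF_inner] at hee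
        exact absurd hee.symm (hI.lam_ne y a ha)
      · rw [hf, CombF_inner, CombF_inner] at hee
        rw [hI.g_inj ha hb hee]
  refine ⟨f, ⟨?_, hinj, ?_⟩, ?_⟩
  · intro e he
    have h1 := hmaps e he
    rw [Finset.mem_Icc] at h1
    exact h1
  · have h1 : G.edgeFinset.image f = Finset.Icc 1 G.edgeFinset.card := by
      apply Finset.eq_of_subset_of_card_le
      · intro y hy
        obtain ⟨e, he, rfl⟩ := Finset.mem_image.1 hy
        exact hmaps e he
      · rw [Finset.card_image_of_injOn hinj, Nat.card_Icc]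
        omega
    intro y hy
    have h2 : y ∈ G.edgeFinset.image f := by
      rw [h1, Finset.mem_Icc]
      exact hy
    obtain ⟨e, he, hey⟩ := Finset.mem_image.1 h2
    exact ⟨e, he, hey⟩
  · have hleaf : ∀ x : CombX G, ∑ e ∈ G.incidenceFinset x.1, f e = lam x := by
      intro x
      rw [Comb_incidence_leaf h, Finset.sum_singleton, hf, CombF_leaf]
    have hin : ∀ w : CombW G, ∑ e ∈ G.incidenceFinset w.1, f e
        = wsum own (CombH G).edgeFinset lam g w := by
      intro w
      rw [Comb_incidence h, Finset.sum_union (Comb_disjoint own _ _),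
        Finset.sum_image (fun a _ b _ hab => CombL_inj own hab),
        Finset.sum_image (fun a _ b _ hab => CombE_inj hab)]
      unfold wsum
      rw [hf]
      congr 1
      · exact Finset.sum_congr rfl fun x _ => CombF_leaf own lam g x
      · exact Finset.sum_congr rfl fun x _ => CombF_inner own lam g x
    intro u v huv
    change ∑ e ∈ G.incidenceFinset u, f e = ∑ e ∈ G.incidenceFinset v, f e at huv
    by_cases hu : G.degree u = 1
    · by_cases hv : G.degree v = 1
      · have h1 := hleaf ⟨u, hu⟩
        have h2 := hleaf ⟨v, hv⟩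
        simp only at h1 h2
        rw [h1, h2] at huv
        exact congrArg Subtype.val (hI.lam_inj huv)
      · have h1 := hleaf ⟨u, hu⟩
        have h2 := hin ⟨v, hv⟩
        simp only at h1 h2
        rw [h1, h2] at huv
        exact absurd huv (hI.gt _ _).ne
    · by_cases hv : G.degree v = 1
      · have h1 := hin ⟨u, hu⟩
        have h2 := hleaf ⟨v, hv⟩
        simp only at h1 h2
        rw [h1, h2] at huv
        exact absurd huv (hI.gt _ _).ne'
      · have h1 := hin ⟨u, hu⟩
        have h2 := hin ⟨v, hv⟩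
        simp only at h1 h2
        rw [h1, h2] at huv
        exact congrArg Subtype.val (hI.inj huv)

end Aux

/-- The inner graph of a connected graph with at least three vertices. `W` = `{v // G.degree v ≠ 1}`,
`X = {v // G.degree v = 1}`, `H` = `G` on `W`, `own x` = the neighbour of `x` (it is in `W`, otherwise
the component would have two vertices). `H` is connected (a path between two vertices of `W` has no
inner vertex of degree one). A vertex `w` has degree at least two in `G`, and its neighbours are the ones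
in `H` and its leaves. The labelling of `G`: `lam x` on the edge of the leaf `x`, `g` on the edges of
`H`; the sum at a leaf `x` is `lam x`, the sum at `w` is `wsum`. -/
theorem of_inner {V : Type} [Fintype V] [DecidableEq V] (G : SimpleGraph V) [DecidableRel G.Adj]
    (hG : G.Connected) (hV : 3 ≤ Fintype.card V) :
    ∃ (W : Type) (_ : Fintype W) (_ : DecidableEq W) (X : Type) (_ : Fintype X) (_ : DecidableEq X)
      (H : SimpleGraph W) (_ : DecidableRel H.Adj) (own : X → W),
      H.Connected ∧ Fintype.card W + Fintype.card X = Fintype.card V ∧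
      Fintype.card X + H.edgeFinset.card = G.edgeFinset.card ∧
      (∀ w, 2 ≤ (leavesAt own w).card + H.degree w) ∧
      (IAM H own → Antimagic G) := by
  obtain ⟨own, h⟩ := Comb_own hG hV
  exact ⟨CombW G, inferInstance, inferInstance, CombX G, inferInstance, inferInstance, CombH G,
    inferInstance, own, Comb_connected hG h, Comb_card, Comb_card_edges h, Comb_degree hG hV h,
    Comb_antimagic h⟩

end Pool.Agent.AMF
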