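import Mathlib

/-!
# Antimagic labellings through the inner graph

`G` is a connected graph with at least three vertices; `X` = vertices of degree one (leaves), `W` = the
other vertices, `H` = the graph on `W`, `own x` = the neighbour of the leaf `x`.
-/

set_option autoImplicit false
set_option linter.unusedSectionVars false
set_option linter.unusedVariables false

namespace Pool.Agent.AMF

open Finset

section

variable {W X : Type} [Fintype W] [DecidableEq W] [Fintype X] [DecidableEq X]

/-- the leaves at `w` -/
def leavesAt (own : X → W) (w : W) : Finset X := univ.filter fun x => own x = w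

/-- the edges of `E` at `w` -/
def edgesAt (E : Finset (Sym2 W)) (w : W) : Finset (Sym2 W) := E.filter fun e => w ∈ e

/-- the sum at the inner vertex `w` -/
def wsum (own : X → W) (E : Finset (Sym2 W)) (lam : X → ℕ) (g : Sym2 W → ℕ) (w : W) : ℕ :=
  ∑ x ∈ leavesAt own w, lam x + ∑ e ∈ edgesAt E w, g e

/-- Labels `lam` of the leaf edges and `g` of the inner edges: together a bijection onto `1, ..., m`,
the sums at inner vertices are distinct and greater than the labels of the leaf edges. -/
structure IsIAM (own : X → W) (E : Finset (Sym2 W)) (lam : X → ℕ) (g : Sym2 W → ℕ) : Prop where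
  lam_mem : ∀ x, 1 ≤ lam x ∧ lam x ≤ Fintype.card X + E.card
  g_mem : ∀ e ∈ E, 1 ≤ g e ∧ g e ≤ Fintype.card X + E.card
  lam_inj : Function.Injective lam
  g_inj : Set.InjOn g E
  lam_ne : ∀ x, ∀ e ∈ E, lam x ≠ g e
  inj : Function.Injective (wsum own E lam g)
  gt : ∀ x w, lam x < wsum own E lam g w

/-- Inner form of antimagic -/
def IAM (H : SimpleGraph W) [DecidableRel H.Adj] (own : X → W) : Prop :=
  ∃ (lam : X → ℕ) (g : Sym2 W → ℕ), IsIAM own H.edgeFinset lam g

end

/-- Antimagic graphs (labels `1, ..., m`, distinct vertex sums). -/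
def Antimagic {V : Type} [Fintype V] [DecidableEq V] (G : SimpleGraph V) [DecidableRel G.Adj] : Prop :=
  ∃ f : Sym2 V → ℕ, Set.BijOn f (↑G.edgeFinset : Set (Sym2 V)) (Set.Icc 1 G.edgeFinset.card) ∧
    Function.Injective (fun v => ∑ e ∈ G.incidenceFinset v, f e)

end Pool.Agent.AMF
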