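import Mathlib

/-!
# Matching or cover
-/

set_option autoImplicit false

namespace Pool.Agent.AMF

open Finset

/-- Take a matching with the largest number of edges (or greedily an inclusion-maximal set of pairwise
disjoint edges): the set of its ends is a vertex cover. -/
theorem matching_or_cover {W : Type} [Fintype W] [DecidableEq W] (H : SimpleGraph W)
    [DecidableRel H.Adj] (t : ℝ) (ht : 0 ≤ t) :
    (∃ M : H.Subgraph, M.IsMatching ∧ t ≤ M.edgeSet.ncard) ∨
      ∃ Z : Finset W, (∀ e ∈ H.edgeFinset, ∃ z ∈ Z, z ∈ e) ∧ (Z.card : ℝ) ≤ 2 * t := by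
  classical
  set P : ℕ → Prop := fun k => ∃ M : H.Subgraph, M.IsMatching ∧ M.edgeSet.ncard = k ∧
    M.verts.ncard ≤ 2 * k with hP
  have h0 : P 0 := by
    refine ⟨⊥, ?_, ?_, ?_⟩
    · intro v hv; simp at hv
    · simp
    · simp
  have hbd : ∀ k, P k → k ≤ Fintype.card (Sym2 W) := by
    rintro k ⟨M, -, hk, -⟩
    rw [← hk, ← Nat.card_eq_fintype_card, ← Set.ncard_univ]
    exact Set.ncard_le_ncard (Set.subset_univ _) (Set.toFinite _)
  obtain ⟨k, hk, hmax⟩ : ∃ k, P k ∧ ¬ P (k + 1) := by
    by_contra hcon
    push Not at hcon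
    have hall : ∀ k, P k := fun k => Nat.rec h0 (fun k ih => hcon k ih) k
    have := hbd _ (hall (Fintype.card (Sym2 W) + 1))
    omega
  obtain ⟨M, hM, hMk, hMv⟩ := hk
  by_cases htk : t ≤ k
  · left
    exact ⟨M, hM, by rw [hMk]; exact htk⟩
  · right
    push Not at htk
    refine ⟨M.verts.toFinset, ?_, ?_⟩
    · intro e he
      by_contra hno
      push Not at hno
      induction e using Sym2.ind with
      | _ v w =>
        rw [SimpleGraph.mem_edgeFinset, SimpleGraph.mem_edgeSet] at he
        have hv : v ∉ M.verts := fun h => hno v (Set.mem_toFinset.2 h) (Sym2.mem_mk_left v w)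
        have hw : w ∉ M.verts := fun h => hno w (Set.mem_toFinset.2 h) (Sym2.mem_mk_right v w)
        apply hmax
        refine ⟨M ⊔ H.subgraphOfAdj he, ?_, ?_, ?_⟩
        · refine hM.sup (SimpleGraph.Subgraph.IsMatching.subgraphOfAdj he) ?_
          rw [Set.disjoint_left]
          intro x hx hx'
          have hx1 : x ∈ M.verts := M.support_subset_verts hx
          have hx2 : x ∈ (H.subgraphOfAdj he).verts :=
            (H.subgraphOfAdj he).support_subset_verts hx'
          simp only [SimpleGraph.subgraphOfAdj_verts, Set.mem_insert_iff,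
            Set.mem_singleton_iff] at hx2
          rcases hx2 with rfl | rfl
          · exact hv hx1
          · exact hw hx1
        · have hnot : s(v, w) ∉ M.edgeSet := by
            intro h
            rw [SimpleGraph.Subgraph.mem_edgeSet] at h
            exact hv h.fst_mem
          rw [SimpleGraph.Subgraph.edgeSet_sup, SimpleGraph.edgeSet_subgraphOfAdj,
            Set.union_singleton, Set.ncard_insert_of_notMem hnot (Set.toFinite _), hMk]
        · rw [SimpleGraph.Subgraph.verts_sup, SimpleGraph.subgraphOfAdj_verts]
          refine (Set.ncard_union_le _ _).trans ?_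
          have := Set.ncard_insert_le v ({w} : Set W)
          rw [Set.ncard_singleton] at this
          omega
    · rw [← Set.ncard_eq_toFinset_card']
      have : (M.verts.ncard : ℝ) ≤ 2 * k := by exact_mod_cast hMv
      linarith

end Pool.Agent.AMF
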