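import Pool.Agent.AMF.Comb
import Pool.Agent.AMF.MoC
import Pool.Agent.AMF.C0
import Pool.Agent.AMF.C1
import Pool.Agent.AMF.C2
import Pool.Agent.AMF.C3

/-!
# Large connected graphs are antimagic
-/

set_option autoImplicit false

namespace Pool.Agent.AMF

open Finset

/-- Inner form of the main theorem. -/
theorem main_inner : ∃ m0 : ℕ, ∀ (W X : Type) [Fintype W] [DecidableEq W] [Fintype X]
    [DecidableEq X] (H : SimpleGraph W) [DecidableRel H.Adj] (own : X → W),
    m0 ≤ Fintype.card W + Fintype.card X → H.Connected →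
    (∀ w, 2 ≤ (leavesAt own w).card + H.degree w) → IAM H own := by
  obtain ⟨ε, hε, n3, h3⟩ := case3
  obtain ⟨c2, hc2, n2, h2⟩ := case2 (ε / 2) (by positivity)
  obtain ⟨n1, h1⟩ := case1 (min (ε / 4) (c2 / 2)) (by positivity)
  obtain ⟨m0, h0⟩ := case0 (max (max n1 n2) n3)
  refine ⟨max (max (max n1 n2) n3) m0 + 1, ?_⟩
  intro W X _ _ _ _ H _ own hm hH hdeg
  set n := Fintype.card W with hn
  by_cases hcase : n ≤ max (max n1 n2) n3
  · refine h0 W X H own hcase ?_ hH hdeg
    -- a connected graph on `n` vertices has at least `n - 1` edges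
    have he : n ≤ H.edgeFinset.card + 1 := by
      have := hH.card_vert_le_card_edgeSet_add_one
      rw [Nat.card_eq_fintype_card, Nat.card_eq_fintype_card] at this
      rw [← SimpleGraph.edgeFinset_card] at this
      exact this
    have h4 := le_max_right (max (max n1 n2) n3) m0
    omega
  · push Not at hcase
    have hn1 : n1 ≤ n := ((le_max_left _ _).trans (le_max_left _ _)).trans hcase.le
    have hn2 : n2 ≤ n := ((le_max_right _ _).trans (le_max_left _ _)).trans hcase.le
    have hn3 : n3 ≤ n := (le_max_right _ _).trans hcase.le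
    have hnn : (0 : ℝ) ≤ n := Nat.cast_nonneg n
    rcases matching_or_cover H (min (ε / 4) (c2 / 2) * n) (by positivity) with hM | ⟨Z, hZ, hZc⟩
    · exact h1 W X H own hn1 hH hdeg hM
    · by_cases hs : ε / 2 * n ≤ ((univ.filter fun w => w ∉ Z ∧ (leavesAt own w).Nonempty).card : ℝ)
      · refine h2 W X H own hn2 hH hdeg Z hZ (hZc.trans ?_) hs
        have : min (ε / 4) (c2 / 2) * n ≤ c2 / 2 * n :=
          mul_le_mul_of_nonneg_right (min_le_right _ _) hnn
        linarith
      · push Not at hs
        refine h3 W X H own hn3 hH hdeg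
          (Z ∪ univ.filter fun w => w ∉ Z ∧ (leavesAt own w).Nonempty) ?_ ?_ ?_
        · intro e he
          obtain ⟨z, hz, hze⟩ := hZ e he
          exact ⟨z, mem_union_left _ hz, hze⟩
        · have h5 : ((Z ∪ univ.filter fun w => w ∉ Z ∧ (leavesAt own w).Nonempty).card : ℝ) ≤
              Z.card + (univ.filter fun w => w ∉ Z ∧ (leavesAt own w).Nonempty).card := by
            exact_mod_cast card_union_le _ _
          have : min (ε / 4) (c2 / 2) * n ≤ ε / 4 * n :=
            mul_le_mul_of_nonneg_right (min_le_left _ _) hnn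
          linarith
        · intro w hw
          simp only [mem_union, mem_filter, mem_univ, true_and, not_or, not_and] at hw
          exact not_nonempty_iff_eq_empty.1 (hw.2 hw.1)

/-- **Main theorem.** All connected graphs with sufficiently many vertices are antimagic. -/
theorem main : ∃ n0 : ℕ, ∀ (V : Type) [Fintype V] [DecidableEq V] (G : SimpleGraph V)
    [DecidableRel G.Adj], G.Connected → n0 ≤ Fintype.card V → Antimagic G := by
  obtain ⟨m0, h⟩ := main_inner
  refine ⟨max m0 3, ?_⟩
  intro V _ _ G _ hG hV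
  obtain ⟨W, _, _, X, _, _, H, _, own, hH, hc, -, hdeg, hfin⟩ :=
    of_inner G hG ((le_max_right _ _).trans hV)
  refine hfin (h W X H own ?_ hH hdeg)
  rw [hc]
  exact (le_max_left _ _).trans hV

end Pool.Agent.AMF
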